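import Pool.Agent.L5helper29.AA.FinM

/-!
# Tuples of members
-/

set_option autoImplicit false
set_option linter.all false

namespace Pool.Agent.L5helper29.AA

open Polynomial NumberField Finset Pool.Agent.W458.MF Pool.Agent.W521.Frob

lemma abs_prod_sub {ι : Type} (s : Finset ι) (x y : ι → ℝ) (hx : ∀ i, 0 ≤ x i ∧ x i ≤ 1)
    (hy : ∀ i, 0 ≤ y i ∧ y i ≤ 1) : |∏ i ∈ s, x i - ∏ i ∈ s, y i| ≤ ∑ i ∈ s, |x i - y i| := by
  classical
  induction s using Finset.induction_on with
  | empty => simp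
  | insert a s ha ih =>
    rw [prod_insert ha, prod_insert ha, sum_insert ha]
    have h1 : x a * ∏ i ∈ s, x i - y a * ∏ i ∈ s, y i =
        (x a - y a) * ∏ i ∈ s, x i + y a * (∏ i ∈ s, x i - ∏ i ∈ s, y i) := by ring
    rw [h1]
    refine (abs_add_le _ _).trans (add_le_add ?_ ?_)
    · rw [abs_mul]
      have h2 : |∏ i ∈ s, x i| ≤ 1 := by
        rw [abs_of_nonneg (prod_nonneg fun i _ => (hx i).1)]
        exact prod_le_one (fun i _ => (hx i).1) (fun i _ => (hx i).2)
      calc |x a - y a| * |∏ i ∈ s, x i| ≤ |x a - y a| * 1 :=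
            mul_le_mul_of_nonneg_left h2 (abs_nonneg _)
        _ = |x a - y a| := mul_one _
    · rw [abs_mul, abs_of_nonneg (hy a).1]
      calc y a * |∏ i ∈ s, x i - ∏ i ∈ s, y i| ≤ 1 * |∏ i ∈ s, x i - ∏ i ∈ s, y i| :=
            mul_le_mul_of_nonneg_right (hy a).2 (abs_nonneg _)
        _ ≤ _ := by rw [one_mul]; exact ih

variable {K : Type} [Field K] [NumberField K] {τ : K →+* ℂ} {q : ℕ} {J J' : Type}
    [Fintype J] [Fintype J'] {N : J → ℕ} {g : J' → ℕ}
    {S : ℕ → Type} [∀ n, Fintype (S n)] {P : ∀ n, S n → J → (𝓞 K)[X]}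
    {h : ∀ n, S n → J' → ℤ[X]} {δ : ℕ → J → 𝓞 K}

/-- The `r`-tuples of the members of a family with large monodromy are such a family. -/
theorem bigFamily_pow (hF : BigFamily τ q N g S P h δ) (r : ℕ) :
    BigFamily τ q (fun x : Fin r × J => N x.2) (fun x : Fin r × J' => g x.2)
      (fun n => Fin r → S n) (fun n s x => P n (s x.1) x.2) (fun n s x => h n (s x.1) x.2)
      (fun n x => δ n x.2) where
  three_le := fun j => hF.three_le _
  pos := fun j => hF.pos _
  monic := fun n s j => hF.monic _ _ _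
  natDegree := fun n s j => hF.natDegree _ _ _
  monic' := fun n s j => hF.monic' _ _ _
  natDegree' := fun n s j => hF.natDegree' _ _ _
  norm := fun n s j x hx => hF.norm _ _ _ _ hx
  norm' := fun n s j x hx => hF.norm' _ _ _ _ hx
  dvd := fun n j => hF.dvd _ _
  equi := by
    classical
    obtain ⟨r₀, hr₀⟩ := hF.equi
    refine ⟨r₀, fun p p' φ φ' hp hp' h0 h0' hne ε hε => ?_⟩
    haveI : Fact p.Prime := ⟨hp⟩
    haveI : Fact p'.Prime := ⟨hp'⟩
    have hε' : 0 < ε / (r + 1) := by positivity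
    obtain ⟨n₀, hn₀⟩ := hr₀ p p' φ φ' hp hp' h0 h0' hne (ε / (r + 1)) hε'
    refine ⟨n₀, fun n hn hnon E E' D D' => ?_⟩
    -- the single members
    let X : Fin r → Set (S n) := fun a => {s : S n |
      (∀ j, (P n s j).map φ ∈ E (a, j) ∧ (P n s j).map φ' ∈ E' (a, j)) ∧
        ∀ i, (h n s i).map (Int.castRingHom (ZMod p)) ∈ D (a, i) ∧
          (h n s i).map (Int.castRingHom (ZMod p')) ∈ D' (a, i)}
    let x : Fin r → ℝ := fun a => ((X a).ncard : ℝ) / (Nat.card (S n) : ℝ)
    let y : Fin r → ℝ := fun a =>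
      (∏ j, share (N j) p (φ (δ n j)) (E (a, j)) * share (N j) p' (φ' (δ n j)) (E' (a, j))) *
        ∏ i, proportion (g i) p (q ^ n) (D (a, i)) * proportion (g i) p' (q ^ n) (D' (a, i))
    have hxy : ∀ a, |x a - y a| ≤ ε / (r + 1) := by
      intro a
      obtain ⟨s⟩ := hnon
      exact hn₀ n hn ⟨s a⟩ (fun j => E (a, j)) (fun j => E' (a, j)) (fun i => D (a, i))
        (fun i => D' (a, i))
    have hx : ∀ a, 0 ≤ x a ∧ x a ≤ 1 := by
      intro a
      refine ⟨by positivity, div_le_one_of_le₀ ?_ (Nat.cast_nonneg _)⟩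
      have h1 := Set.ncard_le_ncard (Set.subset_univ (X a)) (Set.toFinite _)
      rw [Set.ncard_univ] at h1
      exact_mod_cast h1
    have hy : ∀ a, 0 ≤ y a ∧ y a ≤ 1 := by
      intro a
      have e1 : ∀ j, 0 ≤ share (N j) p (φ (δ n j)) (E (a, j)) *
          share (N j) p' (φ' (δ n j)) (E' (a, j)) := by
        intro j
        unfold share
        positivity
      have e2 : ∀ i, 0 ≤ proportion (g i) p (q ^ n) (D (a, i)) *
          proportion (g i) p' (q ^ n) (D' (a, i)) := fun i =>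
        mul_nonneg (proportion_le_one _ _ _ _).1 (proportion_le_one _ _ _ _).1
      refine ⟨mul_nonneg (prod_nonneg fun j _ => e1 j) (prod_nonneg fun i _ => e2 i),
        mul_le_one₀ (prod_le_one (fun j _ => e1 j) fun j _ => ?_)
          (prod_nonneg fun i _ => e2 i) (prod_le_one (fun i _ => e2 i) fun i _ => ?_)⟩
      · exact mul_le_one₀ (Pool.Agent.L5helper6.AA.share_le_one _ _ _ _)
          (by unfold share; positivity) (Pool.Agent.L5helper6.AA.share_le_one _ _ _ _)
      · exact mul_le_one₀ (proportion_le_one _ _ _ _).2 (proportion_le_one _ _ _ _).1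
          (proportion_le_one _ _ _ _).2
    -- the tuples
    have h1 : {s : Fin r → S n |
        (∀ j : Fin r × J, (P n (s j.1) j.2).map φ ∈ E j ∧ (P n (s j.1) j.2).map φ' ∈ E' j) ∧
          ∀ i : Fin r × J', (h n (s i.1) i.2).map (Int.castRingHom (ZMod p)) ∈ D i ∧
            (h n (s i.1) i.2).map (Int.castRingHom (ZMod p')) ∈ D' i} = Set.univ.pi X := by
      ext s
      constructor
      · rintro ⟨h1, h2⟩ a -
        exact ⟨fun j => h1 (a, j), fun i => h2 (a, i)⟩
      · intro h1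
        exact ⟨fun j => (h1 j.1 (Set.mem_univ _)).1 j.2, fun i => (h1 i.1 (Set.mem_univ _)).2 i.2⟩
    have h2 : (Set.univ.pi X).ncard = ∏ a, (X a).ncard := by
      rw [← Nat.card_coe_set_eq, Nat.card_congr (Equiv.Set.univPi X), Nat.card_pi]
      rfl
    have h3 : ((Set.univ.pi X).ncard : ℝ) / (Nat.card (Fin r → S n) : ℝ) = ∏ a, x a := by
      rw [h2, Nat.card_pi]
      push_cast
      rw [← prod_div_distrib]
    have h4 : (∏ j : Fin r × J, share (N j.2) p (φ (δ n j.2)) (E j) *
          share (N j.2) p' (φ' (δ n j.2)) (E' j)) *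
        ∏ i : Fin r × J', proportion (g i.2) p (q ^ n) (D i) *
          proportion (g i.2) p' (q ^ n) (D' i) = ∏ a, y a := by
      rw [Fintype.prod_prod_type, Fintype.prod_prod_type, ← prod_mul_distrib]
    rw [h1, h3, h4]
    refine (abs_prod_sub univ x y hx hy).trans ?_
    calc ∑ a, |x a - y a| ≤ ∑ _a : Fin r, ε / (r + 1) := sum_le_sum fun a _ => hxy a
      _ = r * (ε / (r + 1)) := by simp
      _ ≤ ε := by
        rw [mul_div_assoc', div_le_iff₀ (by positivity)]
        nlinarith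

end Pool.Agent.L5helper29.AA
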