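import Mathlib
import Pool.Agent.W458.MF.NStm

/-!
# Families with large unitary monodromy: definitions, and the statements of the parts
-/

set_option autoImplicit false
set_option linter.all false

namespace Pool.Agent.L5helper29.AA

open Polynomial NumberField Pool.Agent.W458.MF

/-- The proportion, among the matrices of size `N` with determinant `δ` over the field with `r`
elements, of those whose characteristic polynomial is in `E`. -/
noncomputable def share (N r : ℕ) (δ : ZMod r) (E : Set (ZMod r)[X]) : ℝ :=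
  ({B : Matrix (Fin N) (Fin N) (ZMod r) | B.det = δ ∧ B.charpoly ∈ E}.ncard : ℝ) /
    ({B : Matrix (Fin N) (Fin N) (ZMod r) | B.det = δ}.ncard : ℝ)

/-- Products of `N` linear factors whose roots have different `e`-th powers. -/
def splitE (N e r : ℕ) : Set (ZMod r)[X] :=
  {f | ∃ T : Finset (ZMod r), T.card = N ∧ f = ∏ t ∈ T, (X - C t) ∧
    ∀ t ∈ T, ∀ u ∈ T, t ≠ u → t ^ e ≠ u ^ e}

/-- Products of a linear factor and an irreducible polynomial of degree `N - 1`. -/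
def linIrr (N r : ℕ) : Set (ZMod r)[X] :=
  {f | ∃ (a : ZMod r) (g : (ZMod r)[X]), f = (X - C a) * g ∧ g ∈ irrSet (N - 1) r}

/-- `x` is a root of the polynomial `P` over the ring of integers of `K`, where `K` is a field
of complex numbers by `τ`. -/
def IsRt {K : Type} [Field K] [NumberField K] (τ : K →+* ℂ) (P : (𝓞 K)[X]) (x : ℂ) : Prop :=
  (P.map (τ.comp (algebraMap (𝓞 K) K))).eval x = 0

/-- ORB: the matrices with given characteristic polynomial. -/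
def St_ORB : Prop := ∀ (N r : ℕ) [Fact r.Prime] (f : (ZMod r)[X]), 0 < N → f.Monic →
  f.natDegree = N →
  {B : Matrix (Fin N) (Fin N) (ZMod r) | B.det ≠ 0}.ncard ≤
    r ^ N * {B : Matrix (Fin N) (Fin N) (ZMod r) | B.charpoly = f}.ncard

/-- FIB: the matrices with given determinant. -/
def St_FIB : Prop := ∀ (N r : ℕ) [Fact r.Prime] (δ : ZMod r), 0 < N → δ ≠ 0 →
  {B : Matrix (Fin N) (Fin N) (ZMod r) | B.det ≠ 0}.ncard =
    (r - 1) * {B : Matrix (Fin N) (Fin N) (ZMod r) | B.det = δ}.ncard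

/-- IRR0: the number of irreducible polynomials with given constant term. -/
def St_IRR0 : Prop := ∀ N : ℕ, 2 ≤ N → ∃ c : ℝ, 0 < c ∧ ∃ r₁ : ℕ, ∀ r : ℕ, r.Prime → r₁ ≤ r →
  ∀ a : ZMod r, a ≠ 0 →
    c * (r : ℝ) ^ (N - 1) ≤ ({f : (ZMod r)[X] | f ∈ irrSet N r ∧ f.coeff 0 = a}.ncard : ℝ)

/-- SPL0: the number of products of linear factors, whose roots have different `e`-th powers, with
given constant term. -/
def St_SPL0 : Prop := ∀ N e : ℕ, 2 ≤ N → 0 < e → ∃ c : ℝ, 0 < c ∧ ∃ r₁ : ℕ, ∀ r : ℕ, r.Prime →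
  r₁ ≤ r → ∀ a : ZMod r, a ≠ 0 →
    c * (r : ℝ) ^ (N - 1) ≤ ({f : (ZMod r)[X] | f ∈ splitE N e r ∧ f.coeff 0 = a}.ncard : ℝ)

/-- LIN0: the number of products of a linear factor and an irreducible polynomial with given
constant term (from the number of irreducible polynomials of degree `N - 1`, `St_CNT`). -/
def St_LIN0 : Prop := ∀ N : ℕ, 3 ≤ N → ∃ c : ℝ, 0 < c ∧ ∃ r₁ : ℕ, ∀ r : ℕ, r.Prime →
  r₁ ≤ r → ∀ a : ZMod r, a ≠ 0 →
    c * (r : ℝ) ^ (N - 1) ≤ ({f : (ZMod r)[X] | f ∈ linIrr N r ∧ f.coeff 0 = a}.ncard : ℝ)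

/-- DENS: the proportions (from ORB, FIB, IRR0, SPL0, LIN0). -/
def St_DENS : Prop := ∀ N e : ℕ, 2 ≤ N → 0 < e → ∃ c : ℝ, 0 < c ∧ ∃ r₁ : ℕ, ∀ r : ℕ, r.Prime →
  r₁ ≤ r → ∀ δ : ZMod r, δ ≠ 0 →
    c ≤ share N r δ (irrSet N r) ∧ c ≤ share N r δ (splitE N e r) ∧
      (3 ≤ N → c ≤ share N r δ (linIrr N r))

/-- PRIMES: infinitely many primes `r` for which `R` is modulo `r` a product of different linear
factors, and such that `K` has a place with residue field with `r` elements (from `St_SPL`). -/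
def St_PRIMES : Prop := ∀ (K : Type) [Field K] [NumberField K] (R : ℤ[X]), R.Monic →
  (R.map (Int.castRingHom ℚ)).Separable →
  {r : ℕ | r.Prime ∧ SplitsMod R r ∧ Nonempty (𝓞 K →+* ZMod r)}.Infinite

/-- FROB: Frobenius elements. -/
def St_FROB : Prop := ∀ (K : Type) [Field K] [NumberField K] (τ : K →+* ℂ) (r : ℕ) [Fact r.Prime]
  (φ : 𝓞 K →+* ZMod r) (J : Type) [Finite J] (P : J → (𝓞 K)[X]) (R : ℤ[X]), (∀ j, (P j).Monic) →
  R.Monic → SplitsMod R r →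
  ∃ σ : ℂ ≃+* ℂ, (∀ x : K, σ (τ x) = τ x) ∧ (∀ z : ℂ, aeval z R = 0 → σ z = z) ∧
    (∀ j, (∃ T : Finset (ZMod r), (P j).map φ = ∏ t ∈ T, (X - C t)) →
      ∀ x : ℂ, IsRt τ (P j) x → σ x = x) ∧
    (∀ j, Irreducible ((P j).map φ) → ∀ x y : ℂ, IsRt τ (P j) x → IsRt τ (P j) y →
      ∃ k : ℕ, (σ ^ k : ℂ ≃+* ℂ) x = y) ∧
    (∀ (j : J) (a : ZMod r) (g : (ZMod r)[X]), (P j).map φ = (X - C a) * g → Irreducible g → 2 ≤ g.natDegree →
      ∃ x₀ : ℂ, IsRt τ (P j) x₀ ∧ σ x₀ = x₀ ∧ ∀ x y : ℂ, IsRt τ (P j) x → IsRt τ (P j) y →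
        x ≠ x₀ → y ≠ x₀ → ∃ k : ℕ, (σ ^ k : ℂ ≃+* ℂ) x = y)

/-- POW: different powers modulo `r` imply different powers. -/
def St_POW : Prop := ∀ (K : Type) [Field K] [NumberField K] (τ : K →+* ℂ) (r : ℕ) [Fact r.Prime]
  (φ : 𝓞 K →+* ZMod r) (P : (𝓞 K)[X]) (N e : ℕ), P.Monic → P.map φ ∈ splitE N e r →
  ∀ x y : ℂ, IsRt τ P x → IsRt τ P y → x ≠ y → x ^ e ≠ y ^ e

end Pool.Agent.L5helper29.AA
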