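import Pool.Agent.L5helper29.AA.Rel
import Pool.Agent.L5helper19.AA.Frob3
import Pool.Agent.L5helper19.AA.Pow
import Pool.Agent.W216.MF.Uni

/-!
# The patterns imply that the multiplicative relations are constant on the blocks
-/

set_option autoImplicit false
set_option linter.all false

namespace Pool.Agent.L5helper29.AA

open scoped IntermediateField
open Polynomial NumberField Finset Pool.Agent.W458.MF Pool.Agent.L5helper29.AS
  Pool.Agent.L5helper29.SE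

section

variable {K : Type} [Field K] [NumberField K] (τ : K →+* ℂ)

/-- the set of the complex roots -/
noncomputable def rts (P : (𝓞 K)[X]) : Finset ℂ :=
  (P.map (τ.comp (algebraMap (𝓞 K) K))).roots.toFinset

variable {τ}

lemma mem_rts {P : (𝓞 K)[X]} (hP : P.Monic) {x : ℂ} : x ∈ rts τ P ↔ IsRt τ P x := by
  unfold rts IsRt
  rw [Multiset.mem_toFinset, mem_roots (hP.map _).ne_zero]
  rfl

/-- the automorphisms over `K` which fix `B` -/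
def GK (τ : K →+* ℂ) (B : Finset ℂ) : Subgroup (RingAut ℂ) where
  carrier := {σ | (∀ x : K, σ (τ x) = τ x) ∧ ∀ b ∈ B, σ b = b}
  mul_mem' := by
    rintro σ σ' ⟨h1, h2⟩ ⟨h3, h4⟩
    refine ⟨fun x => ?_, fun b hb => ?_⟩
    · change σ (σ' (τ x)) = _
      rw [h3, h1]
    · change σ (σ' b) = _
      rw [h4 b hb, h2 b hb]
  one_mem' := ⟨fun x => rfl, fun b hb => rfl⟩
  inv_mem' := by
    rintro σ ⟨h1, h2⟩
    refine ⟨fun x => ?_, fun b hb => ?_⟩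
    · change σ.symm _ = _
      rw [RingEquiv.symm_apply_eq]
      exact (h1 x).symm
    · change σ.symm _ = _
      rw [RingEquiv.symm_apply_eq]
      exact (h2 b hb).symm

lemma mem_GK {B : Finset ℂ} {σ : RingAut ℂ} :
    σ ∈ GK τ B ↔ (∀ x : K, σ (τ x) = τ x) ∧ ∀ b ∈ B, σ b = b := Iff.rfl

/-- automorphisms over `K` map roots to roots -/
lemma rts_stable {P : (𝓞 K)[X]} (hP : P.Monic) {σ : RingAut ℂ} (hσ : ∀ x : K, σ (τ x) = τ x)
    {x : ℂ} (hx : x ∈ rts τ P) : σ x ∈ rts τ P := by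
  rw [mem_rts hP] at hx ⊢
  unfold IsRt at hx ⊢
  have h1 := congrArg σ hx
  rw [map_zero, eval_map, eval₂_eq_sum_range, map_sum] at h1
  rw [eval_map, eval₂_eq_sum_range, ← h1]
  refine sum_congr rfl fun i _ => ?_
  rw [map_mul, map_pow]
  congr 1
  exact (hσ _).symm

/-- an irreducible reduction gives different roots -/
lemma rts_card {P : (𝓞 K)[X]} (hP : P.Monic) {r : ℕ} [Fact r.Prime] (φ : 𝓞 K →+* ZMod r)
    (h : Irreducible (P.map φ)) : (rts τ P).card = P.natDegree := by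
  have h1 : Irreducible P := hP.irreducible_of_irreducible_map φ P h
  have h2 : Irreducible (P.map (algebraMap (𝓞 K) K)) :=
    (hP.irreducible_iff_irreducible_map_fraction_map (K := K)).1 h1
  have h3 : (P.map (algebraMap (𝓞 K) K)).Separable := h2.separable
  have h4 : (P.map (τ.comp (algebraMap (𝓞 K) K))).Separable := by
    rw [← Polynomial.map_map]
    exact h3.map
  unfold rts
  rw [Multiset.toFinset_card_of_nodup (nodup_roots h4)]
  rw [splits_iff_card_roots.1 (IsAlgClosed.splits (P.map (τ.comp (algebraMap (𝓞 K) K))))]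
  exact hP.natDegree_map _

/-- **Double transitivity.** -/
lemma two_trans {G : Subgroup (RingAut ℂ)} {S : Finset ℂ} (hst : ∀ σ ∈ G, ∀ x ∈ S, σ x ∈ S)
    {σ₁ σ₂ : RingAut ℂ} (h1 : σ₁ ∈ G) (h2 : σ₂ ∈ G)
    (h3 : ∀ x ∈ S, ∀ y ∈ S, ∃ k : ℕ, (σ₁ ^ k : RingAut ℂ) x = y) {x₀ : ℂ} (hx₀ : x₀ ∈ S)
    (hfix : σ₂ x₀ = x₀)
    (h4 : ∀ x ∈ S, ∀ y ∈ S, x ≠ x₀ → y ≠ x₀ → ∃ k : ℕ, (σ₂ ^ k : RingAut ℂ) x = y) :
    ∀ x ∈ S, ∀ y ∈ S, ∀ x' ∈ S, ∀ y' ∈ S, x ≠ y → x' ≠ y' → ∃ σ ∈ G, σ x = x' ∧ σ y = y' := by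
  intro x hx y hy x' hx' y' hy' hxy hxy'
  obtain ⟨a, ha⟩ := h3 x hx x₀ hx₀
  obtain ⟨b, hb⟩ := h3 x' hx' x₀ hx₀
  have hg : (σ₁ ^ a : RingAut ℂ) ∈ G := G.pow_mem h1 a
  have hg' : (σ₁ ^ b : RingAut ℂ) ∈ G := G.pow_mem h1 b
  have e1 : (σ₁ ^ a : RingAut ℂ) y ≠ x₀ := by
    rw [← ha]
    intro h
    exact hxy ((RingEquiv.injective _ h).symm)
  have e2 : (σ₁ ^ b : RingAut ℂ) y' ≠ x₀ := by
    rw [← hb]
    intro h
    exact hxy' ((RingEquiv.injective _ h).symm)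
  obtain ⟨k, hk⟩ := h4 _ (hst _ hg y hy) _ (hst _ hg' y' hy') e1 e2
  have hfixk : ∀ k : ℕ, (σ₂ ^ k : RingAut ℂ) x₀ = x₀ := by
    intro k
    induction k with
    | zero => rfl
    | succ k ih =>
      rw [pow_succ]
      change (σ₂ ^ k : RingAut ℂ) (σ₂ x₀) = x₀
      rw [hfix, ih]
  refine ⟨(σ₁ ^ b : RingAut ℂ)⁻¹ * (σ₂ ^ k : RingAut ℂ) * (σ₁ ^ a : RingAut ℂ),
    G.mul_mem (G.mul_mem (G.inv_mem hg') (G.pow_mem h2 k)) hg, ?_, ?_⟩
  · change (σ₁ ^ b : RingAut ℂ).symm ((σ₂ ^ k : RingAut ℂ) ((σ₁ ^ a : RingAut ℂ) x)) = x'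
    rw [ha, hfixk, RingEquiv.symm_apply_eq, hb]
  · change (σ₁ ^ b : RingAut ℂ).symm ((σ₂ ^ k : RingAut ℂ) ((σ₁ ^ a : RingAut ℂ) y)) = y'
    rw [hk, RingEquiv.symm_apply_eq]

/-- quotients of roots are algebraic numbers of bounded degree -/
lemma quot_degree (τ : K →+* ℂ) {P : (𝓞 K)[X]} (hP : P.Monic) {x y : ℂ} (hx : IsRt τ P x)
    (hy : IsRt τ P y) :
    ∃ f : ℚ[X], f ≠ 0 ∧ f.natDegree ≤ Module.finrank ℚ K * (P.natDegree * P.natDegree) ∧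
      aeval (x / y) f = 0 := by
  letI : Algebra K ℂ := τ.toAlgebra
  have key : ∀ z : ℂ, (P.map (τ.comp (algebraMap (𝓞 K) K))).eval z = 0 →
      IsIntegral K z ∧ Module.finrank K K⟮z⟯ ≤ P.natDegree := by
    intro z hz
    have h1 : aeval z (P.map (algebraMap (𝓞 K) K)) = 0 := by
      rw [← Polynomial.map_map] at hz
      rw [aeval_def, ← eval_map]
      exact hz
    have hm : (P.map (algebraMap (𝓞 K) K)).Monic := hP.map _
    have hi : IsIntegral K z := ⟨_, hm, h1⟩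
    refine ⟨hi, ?_⟩
    rw [IntermediateField.adjoin.finrank hi, ← hP.natDegree_map (algebraMap (𝓞 K) K)]
    exact natDegree_le_of_dvd (minpoly.dvd K z h1) hm.ne_zero
  obtain ⟨hix, hdx⟩ := key x hx
  obtain ⟨hiy, hdy⟩ := key y hy
  haveI : FiniteDimensional K K⟮x⟯ := IntermediateField.adjoin.finiteDimensional hix
  haveI : FiniteDimensional K K⟮y⟯ := IntermediateField.adjoin.finiteDimensional hiy
  set F : IntermediateField K ℂ := K⟮x⟯ ⊔ K⟮y⟯ with hF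
  have hxF : x ∈ F := (le_sup_left : K⟮x⟯ ≤ F) (IntermediateField.mem_adjoin_simple_self K x)
  have hyF : y ∈ F := (le_sup_right : K⟮y⟯ ≤ F) (IntermediateField.mem_adjoin_simple_self K y)
  have hzF : x / y ∈ F := F.div_mem hxF hyF
  haveI : FiniteDimensional K F := IntermediateField.finiteDimensional_sup K⟮x⟯ K⟮y⟯
  haveI : Module.Finite ℚ F := Module.Finite.trans K F
  refine ⟨minpoly ℚ (⟨x / y, hzF⟩ : F), minpoly.ne_zero (Algebra.IsIntegral.isIntegral _), ?_, ?_⟩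
  · refine (minpoly.natDegree_le _).trans ?_
    rw [← Module.finrank_mul_finrank ℚ K F]
    refine Nat.mul_le_mul_left _ ?_
    exact (IntermediateField.finrank_sup_le _ _).trans (Nat.mul_le_mul hdx hdy)
  · have h1 := minpoly.aeval ℚ (⟨x / y, hzF⟩ : F)
    have h2 := congrArg (algebraMap F ℂ) h1
    rw [map_zero, ← aeval_algebraMap_apply] at h2
    exact h2

/-- **The patterns imply that the relations are constant.** -/
theorem relConst_of_patterns {J : Type} [Fintype J] [DecidableEq J] {q : ℕ} (hq : 1 < q)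
    (τ : K →+* ℂ) (P : J → (𝓞 K)[X]) (B : Finset ℂ) (hB0 : ∀ b ∈ B, b ≠ 0) (R : ℤ[X])
    (hR : R.Monic) (hBR : ∀ b ∈ B, aeval b R = 0) (hP : ∀ j, (P j).Monic)
    (h3 : ∀ j, 3 ≤ (P j).natDegree) (ρ : ℝ) (hρ : 0 < ρ) (hnorm : ∀ j x, IsRt τ (P j) x → ‖x‖ = ρ)
    (e : ℕ) (he : ∀ j, ∀ z : ℂ, (∃ t : ℕ, 0 < t ∧ z ^ t = 1) →
      (∃ f : ℚ[X], f ≠ 0 ∧ f.natDegree ≤
        Module.finrank ℚ K * ((P j).natDegree * (P j).natDegree) ∧ aeval z f = 0) → z ^ e = 1)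
    (h1 : ∀ j, ∃ (r : ℕ) (_ : Fact r.Prime) (φ : 𝓞 K →+* ZMod r), SplitsMod R r ∧
      (P j).map φ ∈ irrSet (P j).natDegree r ∧
      ∀ i, i ≠ j → (P i).map φ ∈ splitE (P i).natDegree e r)
    (h2 : ∀ j, ∃ (r : ℕ) (_ : Fact r.Prime) (φ : 𝓞 K →+* ZMod r), SplitsMod R r ∧
      (P j).map φ ∈ linIrr (P j).natDegree r)
    (h4 : ∀ j, ∃ (r : ℕ) (_ : Fact r.Prime) (φ : 𝓞 K →+* ZMod r),
      (P j).map φ ∈ splitE (P j).natDegree e r) :
    RelConst q (fun j => rts τ (P j)) B ∧ ∀ j, (rts τ (P j)).card = (P j).natDegree := by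
  classical
  have hcard : ∀ j, (rts τ (P j)).card = (P j).natDegree := by
    intro j
    obtain ⟨r, hr, φ, -, hirr, -⟩ := h1 j
    exact rts_card (hP j) φ hirr.2.2
  have hmem : ∀ j x, x ∈ rts τ (P j) ↔ IsRt τ (P j) x := fun j x => mem_rts (hP j)
  have hst : ∀ j, ∀ σ ∈ GK τ B, ∀ x ∈ rts τ (P j), σ x ∈ rts τ (P j) :=
    fun j σ hσ x hx => rts_stable (hP j) hσ.1 hx
  -- the first elements
  have k1 : ∀ j, ∃ σ ∈ GK τ B, (∀ i, i ≠ j → ∀ x ∈ rts τ (P i), σ x = x) ∧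
      ∀ x ∈ rts τ (P j), ∀ y ∈ rts τ (P j), ∃ k : ℕ, (σ ^ k : RingAut ℂ) x = y := by
    intro j
    obtain ⟨r, hr, φ, hRr, hirr, hsp⟩ := h1 j
    obtain ⟨σ, a1, a2, a3, a4, -⟩ := Pool.Agent.L5helper19.AA.FROB K τ r φ J P R hP hR hRr
    refine ⟨σ, ⟨a1, fun b hb => a2 b (hBR b hb)⟩, ?_, ?_⟩
    · intro i hi x hx
      obtain ⟨T, -, hT, -⟩ := hsp i hi
      exact a3 i ⟨T, hT⟩ x ((hmem i x).1 hx)
    · intro x hx y hy
      exact a4 j hirr.2.2 x y ((hmem j x).1 hx) ((hmem j y).1 hy)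
  -- the second elements
  have k2 : ∀ j, ∃ σ ∈ GK τ B, ∃ x₀ ∈ rts τ (P j), σ x₀ = x₀ ∧
      ∀ x ∈ rts τ (P j), ∀ y ∈ rts τ (P j), x ≠ x₀ → y ≠ x₀ →
        ∃ k : ℕ, (σ ^ k : RingAut ℂ) x = y := by
    intro j
    obtain ⟨r, hr, φ, hRr, a, g, hag, hg⟩ := h2 j
    obtain ⟨σ, a1, a2, -, -, a5⟩ := Pool.Agent.L5helper19.AA.FROB K τ r φ J P R hP hR hRr
    obtain ⟨x₀, b1, b2, b3⟩ := a5 j a g hag hg.2.2 (by
      have := hg.2.1
      have := h3 j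
      omega)
    refine ⟨σ, ⟨a1, fun b hb => a2 b (hBR b hb)⟩, x₀, (hmem j x₀).2 b1, b2, ?_⟩
    intro x hx y hy
    exact b3 x y ((hmem j x).1 hx) ((hmem j y).1 hy)
  have htwo : ∀ j, ∀ x ∈ rts τ (P j), ∀ y ∈ rts τ (P j), ∀ x' ∈ rts τ (P j), ∀ y' ∈ rts τ (P j),
      x ≠ y → x' ≠ y' → ∃ σ ∈ GK τ B, σ x = x' ∧ σ y = y' := by
    intro j
    obtain ⟨σ₁, b1, -, b3⟩ := k1 j
    obtain ⟨σ₂, c1, x₀, c2, c3, c4⟩ := k2 j
    exact two_trans (hst j) b1 c1 b3 c2 c3 c4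
  have hgt : ∀ j, ∃ x ∈ rts τ (P j), ∃ y ∈ rts τ (P j), x ≠ y := by
    intro j
    have h5 : 1 < (rts τ (P j)).card := by rw [hcard]; have := h3 j; omega
    obtain ⟨x, hx, y, hy, hxy⟩ := one_lt_card.1 h5
    exact ⟨x, hx, y, hy, hxy⟩
  have hblk : ∀ j, Blk (GK τ B) (rts τ (P j)) := by
    intro j
    refine ⟨?_, ?_, hst j, Or.inl (htwo j), ?_⟩
    · intro x hx h
      have h5 := hnorm j x ((hmem j x).1 hx)
      rw [h, norm_zero] at h5
      exact hρ.ne h5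
    · intro x hx y hy
      rw [hnorm j x ((hmem j x).1 hx), hnorm j y ((hmem j y).1 hy)]
    · obtain ⟨x, hx, y, hy, hxy⟩ := hgt j
      refine ⟨x, hx, y, hy, fun N hN h => ?_⟩
      obtain ⟨r, hr, φ, hsp⟩ := h4 j
      have h5 := Pool.Agent.L5helper19.AA.POW K τ r φ (P j) _ e (hP j) hsp x y
        ((hmem j x).1 hx) ((hmem j y).1 hy) hxy
      have hy0 : y ≠ 0 := by
        intro h6
        have h7 := hnorm j y ((hmem j y).1 hy)
        rw [h6, norm_zero] at h7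
        exact hρ.ne h7
      have h6 := he j (x / y) ⟨N, hN, by rw [div_pow, h, div_self (pow_ne_zero _ hy0)]⟩
        (quot_degree τ (hP j) ((hmem j x).1 hx) ((hmem j y).1 hy))
      rw [div_pow, div_eq_one_iff_eq (pow_ne_zero _ hy0)] at h6
      exact h5 h6
  refine ⟨?_, hcard⟩
  refine relConst (p := q) (fun j => rts τ (P j)) B (GK τ B) hq hblk hB0
    (fun σ hσ b hb => by rw [hσ.2 b hb]; exact hb) ?_
  intro j
  obtain ⟨σ, b1, b2, b3⟩ := k1 j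
  refine ⟨σ, b1, b2, fun b hb => b1.2 b hb, ?_⟩
  by_contra hcon
  push Not at hcon
  obtain ⟨x, hx, y, hy, hxy⟩ := hgt j
  obtain ⟨k, hk⟩ := b3 x hx y hy
  apply hxy
  rw [← hk]
  have hfixk : ∀ k : ℕ, (σ ^ k : RingAut ℂ) x = x := by
    intro k
    induction k with
    | zero => rfl
    | succ k ih =>
      rw [pow_succ]
      change (σ ^ k : RingAut ℂ) (σ x) = x
      rw [hcon x hx, ih]
  exact (hfixk k).symm

end

end Pool.Agent.L5helper29.AA
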