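import Pool.Agent.L5helper29.AA.Tate

/-!
# Blocks of symplectic type
-/

set_option autoImplicit false
set_option linter.all false

namespace Pool.Agent.L5helper29.AA

open Finset TensorProduct
open Pool.Agent.H925R2 Pool.Agent.L5helper29.AS Pool.Agent.L5helper29.SE

section

variable {J J' : Type*} [Fintype J] [DecidableEq J] [Fintype J'] [DecidableEq J']

/-- all blocks -/
def both (A : J → Finset ℂ) (A' : J' → Finset ℂ) : J ⊕ J' → Finset ℂ := Sum.elim A A'

/-- The exponents of the multiplicative relations between the elements of the sets `A j` and `A' i`,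
modulo roots of unity and the group generated by `Q` and `B`, are constant on the sets `A j`, and
equal at `x` and `Q / x` in the sets `A' i`. -/
def RelM (Q : ℕ) (A : J → Finset ℂ) (A' : J' → Finset ℂ) (B : Finset ℂ) : Prop :=
  ∀ (m : ∀ o, both A A' o → ℤ) (N : ℕ), 0 < N → ∀ (k : ℤ) (n : ℂ → ℤ),
    mono (both A A') m ^ N = (Q : ℂ) ^ k * ∏ b ∈ B, b ^ n b →
      (∀ (j : J) (x y : both A A' (Sum.inl j)), m (Sum.inl j) x = m (Sum.inl j) y) ∧
      (∀ (i : J') (x y : both A A' (Sum.inr i)), (x : ℂ) * y = Q →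
        m (Sum.inr i) x = m (Sum.inr i) y)

/-- one element of each pair `x, Q / x` -/
noncomputable def half (A' : J' → Finset ℂ) (i : J') : Finset ℂ :=
  (A' i).filter (fun x => 0 < x.im)

lemma half_cases {Q : ℕ} (hQ : 1 ≤ Q) {A' : J' → Finset ℂ}
    (hn : ∀ i, ∀ x ∈ A' i, ‖x‖ = Real.sqrt Q) (hd : ∀ i, ∀ x ∈ A' i, (Q : ℂ) / x ∈ A' i)
    (hf : ∀ i, ∀ x ∈ A' i, (Q : ℂ) / x ≠ x) (i : J') (x : ℂ) (hx : x ∈ A' i) :
    (x ∈ half A' i ∨ (Q : ℂ) / x ∈ half A' i) ∧
      (x ∈ half A' i → (Q : ℂ) / x ∉ half A' i) := by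
  have hQ0 : (0 : ℝ) < Q := by exact_mod_cast hQ
  have hx0 : x ≠ 0 := by
    intro h
    have := hn i x hx
    rw [h, norm_zero] at this
    exact (Real.sqrt_pos.2 hQ0).ne this
  have h1 : (Q : ℂ) / x = (starRingEnd ℂ) x := by
    rw [div_eq_iff hx0, mul_comm, Complex.mul_conj, Complex.normSq_eq_norm_sq, hn i x hx,
      Real.sq_sqrt hQ0.le]
    norm_cast
  have him : ((Q : ℂ) / x).im = - x.im := by rw [h1, Complex.conj_im]
  have hne : x.im ≠ 0 := by
    intro h
    apply hf i x hx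
    rw [h1]
    exact Complex.conj_eq_iff_im.2 h
  unfold half
  rw [mem_filter, mem_filter, him]
  constructor
  · rcases lt_or_gt_of_ne hne with h | h
    · exact Or.inr ⟨hd i x hx, by linarith⟩
    · exact Or.inl ⟨hx, h⟩
  · rintro ⟨-, h⟩ ⟨-, h'⟩
    linarith

/-- relations between the elements of the half blocks -/
theorem relSp_of_relM {Q : ℕ} (hQ : 1 ≤ Q) {A : J → Finset ℂ} {A' : J' → Finset ℂ}
    {B : Finset ℂ} (hn : ∀ i, ∀ x ∈ A' i, ‖x‖ = Real.sqrt Q)
    (hd : ∀ i, ∀ x ∈ A' i, (Q : ℂ) / x ∈ A' i) (hf : ∀ i, ∀ x ∈ A' i, (Q : ℂ) / x ≠ x)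
    (rel : RelM Q A A' B) : RelSp Q (both A (half A')) B (fun o => o.isRight = true) := by
  classical
  intro m N hN k n hm
  set m' : ∀ o, both A A' o → ℤ := fun o => match o with
    | Sum.inl j => fun x => m (Sum.inl j) x
    | Sum.inr i => fun x => if h : (x : ℂ) ∈ half A' i then m (Sum.inr i) ⟨x, h⟩ else 0 with hm'
  have hmono : mono (both A A') m' = mono (both A (half A')) m := by
    unfold mono
    rw [Fintype.prod_sum_type, Fintype.prod_sum_type]
    congr 1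
    refine prod_congr rfl fun i _ => ?_
    have h1 : ∏ x : both A A' (Sum.inr i), (x : ℂ) ^ m' (Sum.inr i) x =
        ∏ x ∈ A' i, x ^ (if h : x ∈ half A' i then m (Sum.inr i) ⟨x, h⟩ else 0) :=
      prod_coe_sort (A' i) (fun x => x ^ (if h : x ∈ half A' i then m (Sum.inr i) ⟨x, h⟩ else 0))
    have h2 : ∏ x : both A (half A') (Sum.inr i), (x : ℂ) ^ m (Sum.inr i) x =
        ∏ x ∈ half A' i, x ^ (if h : x ∈ half A' i then m (Sum.inr i) ⟨x, h⟩ else 0) := by
      rw [← prod_coe_sort (half A' i)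
        (fun x => x ^ (if h : x ∈ half A' i then m (Sum.inr i) ⟨x, h⟩ else 0))]
      refine prod_congr rfl fun x _ => ?_
      have h3 : (x : ℂ) ∈ half A' i := x.2
      have h4 : (if h : (x : ℂ) ∈ half A' i then m (Sum.inr i) ⟨x, h⟩ else 0) =
          m (Sum.inr i) x := dif_pos h3
      exact congrArg (fun z : ℤ => (x : ℂ) ^ z) h4.symm
    rw [h1, h2]
    refine (prod_subset (filter_subset _ _) ?_).symm
    intro x _ hx
    have hx' : x ∉ half A' i := hx
    rw [dif_neg hx', zpow_zero]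
  obtain ⟨h1, h2⟩ := rel m' N hN k n (by rw [hmono]; exact hm)
  rintro (j | i)
  · exact ⟨fun x y => h1 j x y, fun h => absurd h (by simp)⟩
  · have hz : ∀ x : both A (half A') (Sum.inr i), m (Sum.inr i) x = 0 := by
      intro x
      have hx : (x : ℂ) ∈ half A' i := x.2
      have hxA : (x : ℂ) ∈ A' i := (mem_filter.1 hx).1
      have hx0 : (x : ℂ) ≠ 0 := by
        intro h
        have h3 := hn i x hxA
        rw [h, norm_zero] at h3
        exact (Real.sqrt_pos.2 (by exact_mod_cast hQ : (0 : ℝ) < Q)).ne h3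
      have h3 := h2 i ⟨x, hxA⟩ ⟨(Q : ℂ) / x, hd i x hxA⟩ (by
        change (x : ℂ) * (Q / x) = Q
        field_simp)
      have h4 := (half_cases hQ hn hd hf i x hxA).2 hx
      have h5 : m' (Sum.inr i) ⟨x, hxA⟩ = m (Sum.inr i) x := dif_pos hx
      have h6 : m' (Sum.inr i) ⟨(Q : ℂ) / x, hd i x hxA⟩ = 0 := dif_neg h4
      rw [← h5, h3, h6]
    exact ⟨fun x y => by rw [hz, hz], fun _ x => hz x⟩

/-- the union of the blocks does not contain half blocks -/
lemma blocks_both {K : Type*} [Field K] [DecidableEq K] (q : K) (A : J → Finset K)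
    (H : J' → Finset K) (t : J ⊕ J' → ℤ) (ht : ∀ i, t (Sum.inr i) = 0) :
    blocks q (Sum.elim A H : J ⊕ J' → Finset K) t = blocks q A (fun j => t (Sum.inl j)) := by
  unfold blocks
  rw [Fintype.sum_sum_type]
  have h1 : ∑ i : J', ((t (Sum.inr i)).toNat • ((Sum.elim A H : J ⊕ J' → Finset K) (Sum.inr i)).val +
      (-t (Sum.inr i)).toNat •
        ((Sum.elim A H : J ⊕ J' → Finset K) (Sum.inr i)).val.map (fun x => q / x)) = 0 := by
    refine sum_eq_zero fun i _ => ?_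
    rw [ht i]
    simp
  rw [h1, add_zero]
  rfl

variable {V : Type*} [AddCommGroup V] [Module ℂ V] (Φ : V →ₗ[ℂ] V)
  {W : Type*} [AddCommGroup W] [Module ℂ W] [FiniteDimensional ℂ W] (Ψ : W →ₗ[ℂ] W)

/-- **The relative theorem for blocks of both types.** -/
theorem tate_mix {Q : ℕ} (hQ : 1 < Q) {A : J → Finset ℂ} {A' : J' → Finset ℂ} {B : Finset ℂ}
    (h0 : ∀ j, ∀ x ∈ A j, x ≠ 0) (h3 : ∀ j, 3 ≤ (A j).card)
    (hn : ∀ i, ∀ x ∈ A' i, ‖x‖ = Real.sqrt Q) (hd : ∀ i, ∀ x ∈ A' i, (Q : ℂ) / x ∈ A' i)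
    (hf : ∀ i, ∀ x ∈ A' i, (Q : ℂ) / x ≠ x) (rel : RelM Q A A' B)
    (hspan : Submodule.span ℂ {v : V | (∃ j, ∃ α ∈ A j, Φ v = α • v ∨ Φ v = ((Q : ℂ) / α) • v) ∨
      ∃ i, ∃ α ∈ A' i, Φ v = α • v} = ⊤)
    (hB0 : ∀ b ∈ B, b ≠ 0) (hΨ : ∀ ν : ℂ, Module.End.HasEigenvalue Ψ ν → InGrp Q B ν)
    (k : ℕ) (m : ℤ) (s : ℕ) (hs : 1 ≤ s) (x : W ⊗[ℂ] ExteriorAlgebra ℂ V)
    (hx : x ∈ Submodule.span ℂ {y | ∃ w : W, ∃ z ∈ ⋀[ℂ]^k V, y = w ⊗ₜ[ℂ] z})
    (hT : TateEq Φ Ψ (Q : ℂ) m s x) :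
    x ∈ Submodule.span ℂ {y | ∃ (t : J → ℤ) (w : W) (D R : ExteriorAlgebra ℂ V) (c : ℕ),
      D ∈ detC Φ (blocks (Q : ℂ) A t) ∧ R ∈ Algebra.adjoin ℂ (deg2 Φ (Q : ℂ)) ∧
      k = (blocks (Q : ℂ) A t).card + 2 * c ∧ TateEq Φ Ψ (Q : ℂ) (m - c) s (w ⊗ₜ[ℂ] D) ∧
      (∃ ν : ℂ, Module.End.HasEigenvalue Ψ ν ∧
        (ν * (blocks (Q : ℂ) A t).prod) ^ s = ((Q : ℂ) ^ (m - c)) ^ s) ∧
      y = w ⊗ₜ[ℂ] (D * R)} := by
  classical
  have hQ0 : (Q : ℂ) ≠ 0 := by exact_mod_cast (by omega : Q ≠ 0)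
  have hQR : (0 : ℝ) < Q := by exact_mod_cast (by omega : 0 < Q)
  have h0' : ∀ i, ∀ x ∈ A' i, x ≠ 0 := by
    intro i x hx h
    have h3 := hn i x hx
    rw [h, norm_zero] at h3
    exact (Real.sqrt_pos.2 hQR).ne h3
  have h1 := tate_rel (A := both A (half A')) (B := B) (sp := fun o => o.isRight = true) Φ Ψ hQ
    (by
      rintro (j | i) x hx
      · exact h0 j x hx
      · exact h0' i x (mem_filter.1 hx).1)
    (by
      rintro (j | i) h
      · exact h3 j
      · exact absurd rfl h)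
    (relSp_of_relM (by omega) hn hd hf rel) (Q := (Q : ℂ)) (a₀ := 1) (by rw [zpow_one])
    (by
      rw [← hspan]
      refine le_antisymm (Submodule.span_mono ?_) (Submodule.span_mono ?_)
      · rintro v ⟨μ, ⟨o, h⟩, hv⟩
        rcases o with j | i
        · left
          rcases h with h | h
          · exact ⟨j, μ, h, Or.inl hv⟩
          · have hμ : μ ≠ 0 := by
              rintro rfl
              rw [div_zero] at h
              exact h0 j 0 h rfl
            refine ⟨j, (Q : ℂ) / μ, h, Or.inr ?_⟩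
            rw [hv]
            congr 1
            field_simp
        · right
          rcases h with h | h
          · exact ⟨i, μ, (mem_filter.1 h).1, hv⟩
          · have h4 := (mem_filter.1 h).1
            have hμ : μ ≠ 0 := by
              rintro rfl
              rw [div_zero] at h4
              exact h0' i 0 h4 rfl
            refine ⟨i, μ, ?_, hv⟩
            have h5 := hd i _ h4
            have h6 : (Q : ℂ) / (Q / μ) = μ := by field_simp
            rwa [h6] at h5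
      · rintro v (⟨j, α, hα, h | h⟩ | ⟨i, α, hα, h⟩)
        · exact ⟨α, ⟨Sum.inl j, Or.inl hα⟩, h⟩
        · have := h0 j α hα
          refine ⟨(Q : ℂ) / α, ⟨Sum.inl j, Or.inr ?_⟩, h⟩
          have h6 : (Q : ℂ) / (Q / α) = α := by field_simp
          rw [h6]
          exact hα
        · exact ⟨α, ⟨Sum.inr i, (half_cases (by omega) hn hd hf i α hα).1⟩, h⟩)
    hB0 hΨ k m s hs x hx hT
  refine (Submodule.span_mono ?_) h1
  rintro y ⟨t, w, D, R, c, ht, hD, hR, hk, hT', hν, hy⟩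
  have h4 : blocks (Q : ℂ) (both A (half A')) t = blocks (Q : ℂ) A (fun j => t (Sum.inl j)) :=
    blocks_both (Q : ℂ) A (half A') t (fun i => ht (Sum.inr i) rfl)
  rw [h4] at hD hk hν
  exact ⟨fun j => t (Sum.inl j), w, D, R, c, hD, hR, hk, hT', hν, hy⟩

end

end Pool.Agent.L5helper29.AA
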