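import Pool.Agent.L5helper29.AA.Fam
import Pool.Agent.L5helper29.AA.Half
import Pool.Agent.L5helper29.AA.Gal

/-!
# Families with large monodromy, with blocks of unitary and of symplectic type
-/

set_option autoImplicit false
set_option linter.all false

namespace Pool.Agent.L5helper29.AA

open Polynomial NumberField Pool.Agent.W458.MF Pool.Agent.W521.Frob

/-- Equidistribution: for two large primes `r ≠ r'` and homomorphisms `φ`, `φ'` of the ring of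
integers of `K` to the fields with `r` and `r'` elements, the reductions of the tuples `(P j)`,
`(h i)` are distributed, for `n → ∞`, like the characteristic polynomials of independent random
matrices of size `N j` with determinant `δ j`, and like those (`weil`) of independent random symplectic
similitudes of size `2 g i` with multiplier `q ^ n`. -/
def EquiM {K : Type} [Field K] [NumberField K] (q : ℕ) {J J' : Type} [Fintype J] [Fintype J']
    (N : J → ℕ) (g : J' → ℕ) (S : ℕ → Type) [∀ n, Fintype (S n)] (P : ∀ n, S n → J → (𝓞 K)[X])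
    (h : ∀ n, S n → J' → ℤ[X]) (δ : ℕ → J → 𝓞 K) : Prop :=
  ∃ r₀ : ℕ, ∀ (r r' : ℕ) (φ : 𝓞 K →+* ZMod r) (φ' : 𝓞 K →+* ZMod r'), r.Prime → r'.Prime →
    r₀ ≤ r → r₀ ≤ r' → r ≠ r' → ∀ ε : ℝ, 0 < ε → ∃ n₀ : ℕ, ∀ n ≥ n₀, Nonempty (S n) →
      ∀ (E : J → Set (ZMod r)[X]) (E' : J → Set (ZMod r')[X]) (D : J' → Set (ZMod r)[X])
        (D' : J' → Set (ZMod r')[X]),
        |({s : S n | (∀ j, (P n s j).map φ ∈ E j ∧ (P n s j).map φ' ∈ E' j) ∧
            ∀ i, (h n s i).map (Int.castRingHom (ZMod r)) ∈ D i ∧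
              (h n s i).map (Int.castRingHom (ZMod r')) ∈ D' i}.ncard : ℝ) /
            (Nat.card (S n) : ℝ) -
          (∏ j, share (N j) r (φ (δ n j)) (E j) * share (N j) r' (φ' (δ n j)) (E' j)) *
            ∏ i, proportion (g i) r (q ^ n) (D i) * proportion (g i) r' (q ^ n) (D' i)| ≤ ε

/-- A family with large monodromy: the characteristic polynomials `P n s j`, and
`weil (q ^ n) (h n s i)`, of the Frobenius on the parts `V_j` of unitary type and `V'_i` of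
symplectic type of the members `s ∈ S n` over the field with `q ^ n` elements. -/
structure BigFamily {K : Type} [Field K] [NumberField K] (τ : K →+* ℂ) (q : ℕ) {J J' : Type}
    [Fintype J] [Fintype J'] (N : J → ℕ) (g : J' → ℕ) (S : ℕ → Type) [∀ n, Fintype (S n)]
    (P : ∀ n, S n → J → (𝓞 K)[X]) (h : ∀ n, S n → J' → ℤ[X]) (δ : ℕ → J → 𝓞 K) : Prop where
  three_le : ∀ j, 3 ≤ N j
  pos : ∀ i, 0 < g i
  monic : ∀ n s j, (P n s j).Monic
  natDegree : ∀ n s j, (P n s j).natDegree = N j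
  monic' : ∀ n s i, (h n s i).Monic
  natDegree' : ∀ n s i, (h n s i).natDegree = g i
  norm : ∀ n s j (x : ℂ), IsRt τ (P n s j) x → ‖x‖ = Real.sqrt ((q ^ n : ℕ) : ℝ)
  norm' : ∀ n s i (x : ℂ), aeval x (weil (q ^ n) (h n s i)) = 0 → ‖x‖ = Real.sqrt ((q ^ n : ℕ) : ℝ)
  dvd : ∀ n j, ∃ k : ℕ, δ n j ∣ (q : 𝓞 K) ^ k
  equi : EquiM q N g S P h δ

/-- the complex roots of an integral polynomial -/
noncomputable def rtsZ (f : ℤ[X]) : Finset ℂ := (f.map (Int.castRingHom ℂ)).roots.toFinset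

/-- PATM: the patterns imply the form of the multiplicative relations (mixed blocks). -/
def St_PATM : Prop := ∀ (K : Type) [Field K] [NumberField K] (τ : K →+* ℂ) (J J' : Type)
  [Fintype J] [DecidableEq J] [Fintype J'] [DecidableEq J'] (Q : ℕ), 1 < Q →
  ∀ (P : J → (𝓞 K)[X]) (h : J' → ℤ[X]) (B : Finset ℂ), (∀ b ∈ B, b ≠ 0) →
  ∀ (R : ℤ[X]), R.Monic → (∀ b ∈ B, aeval b R = 0) → (∀ j, (P j).Monic) →
  (∀ j, 3 ≤ (P j).natDegree) → (∀ i, (h i).Monic) → (∀ i, 0 < (h i).natDegree) →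
  (∀ j x, IsRt τ (P j) x → ‖x‖ = Real.sqrt Q) →
  (∀ i (x : ℂ), aeval x (weil Q (h i)) = 0 → ‖x‖ = Real.sqrt Q) →
  ∀ (e M : ℕ), 0 < e → 0 < M →
  (∀ j, ∀ z : ℂ, (∃ t : ℕ, 0 < t ∧ z ^ t = 1) →
    (∃ f : ℚ[X], f ≠ 0 ∧ f.natDegree ≤
      Module.finrank ℚ K * ((P j).natDegree * (P j).natDegree) ∧ aeval z f = 0) → z ^ e = 1) →
  (∀ i, ∀ z : ℂ, (∃ t : ℕ, 0 < t ∧ z ^ t = 1) →
    (∃ f : ℚ[X], f ≠ 0 ∧ f.natDegree ≤ 2 * (h i).natDegree ∧ aeval z f = 0) → z ^ M = 1) →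
  (∀ j, ∃ (r : ℕ) (_ : Fact r.Prime) (φ : 𝓞 K →+* ZMod r), r ≠ 2 ∧ ¬ r ∣ Q ∧ SplitsMod R r ∧
    (P j).map φ ∈ irrSet (P j).natDegree r ∧
    (∀ i, i ≠ j → (P i).map φ ∈ splitE (P i).natDegree e r) ∧
    ∀ i, (h i).map (Int.castRingHom (ZMod r)) ∈ splitSet (h i).natDegree r Q) →
  (∀ j, ∃ (r : ℕ) (_ : Fact r.Prime) (φ : 𝓞 K →+* ZMod r), SplitsMod R r ∧
    (P j).map φ ∈ linIrr (P j).natDegree r) →
  (∀ j, ∃ (r : ℕ) (_ : Fact r.Prime) (φ : 𝓞 K →+* ZMod r),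
    (P j).map φ ∈ splitE (P j).natDegree e r) →
  (∀ i, ∃ (r : ℕ) (_ : Fact r.Prime) (_ : 𝓞 K →+* ZMod r), SplitsMod R r ∧
    (h i).map (Int.castRingHom (ZMod r)) ∈ irrSet (h i).natDegree r) →
  (∀ i, ∃ (r : ℕ) (_ : Fact r.Prime) (φ : 𝓞 K →+* ZMod r), r ≠ 2 ∧ ¬ r ∣ Q ∧ SplitsMod R r ∧
    (h i).map (Int.castRingHom (ZMod r)) ∈ flipSet (h i).natDegree M r Q ∧
    (∀ i', i' ≠ i → (h i').map (Int.castRingHom (ZMod r)) ∈ splitSet (h i').natDegree r Q) ∧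
    ∀ j, (P j).map φ ∈ splitE (P j).natDegree e r) →
  RelM Q (fun j => rts τ (P j)) (fun i => rtsZ (weil Q (h i))) B ∧
    (∀ j, (rts τ (P j)).card = (P j).natDegree) ∧
    (∀ i, (rtsZ (weil Q (h i))).card = 2 * (h i).natDegree) ∧
    (∀ i, ∀ x ∈ rtsZ (weil Q (h i)), (Q : ℂ) / x ∈ rtsZ (weil Q (h i)) ∧ (Q : ℂ) / x ≠ x)

end Pool.Agent.L5helper29.AA
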