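import Mathlib

/-!
# The sieve, general form (statement)
-/

set_option autoImplicit false
set_option linter.all false

namespace Pool.Agent.L5helper29.AA

/-- The sieve, general form: members `s ∈ S n`, data `f n s i r ∈ X r` at the places `r ∈ G`,
approximately independent at two places, with laws `π n i r` (numbers between `0` and `1`). -/
def St_SIEVEG : Prop := ∀ (I κ : Type) [Fintype I] [Fintype κ] (S : ℕ → Type)
  [∀ n, Fintype (S n)] (G : Set ℕ), G.Infinite → ∀ (X : G → Type)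
  (f : ∀ n, S n → I → ∀ r : G, X r) (π : ∀ (n : ℕ) (i : I) (r : G), Set (X r) → ℝ),
  (∀ n i r E, 0 ≤ π n i r E ∧ π n i r E ≤ 1) →
  (∀ r r' : G, r ≠ r' → ∀ ε : ℝ, 0 < ε → ∃ n₀ : ℕ, ∀ n ≥ n₀, Nonempty (S n) →
    ∀ (E : ∀ i : I, Set (X r)) (E' : ∀ i : I, Set (X r')),
      |({s : S n | ∀ i, f n s i r ∈ E i ∧ f n s i r' ∈ E' i}.ncard : ℝ) / (Nat.card (S n) : ℝ) -
        ∏ i, π n i r (E i) * π n i r' (E' i)| ≤ ε) →
  ∀ (E : κ → I → ∀ r : G, Set (X r)) (c : ℝ), 0 < c → (∀ k i n r, c ≤ π n i r (E k i r)) →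
    ∀ ε : ℝ, 0 < ε → ∃ n₀ : ℕ, ∀ n ≥ n₀,
      ({s : S n | ¬ ∀ k, ∃ r : G, ∀ i, f n s i r ∈ E k i r}.ncard : ℝ) ≤
        ε * (Nat.card (S n) : ℝ)

end Pool.Agent.L5helper29.AA
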