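import Pool.Agent.L5helper29.AA.FamM
import Pool.Agent.L5helper29.AA.SieveStm
import Pool.Agent.W458.MF.Fin3
import Pool.Agent.L5helper6.AA.Almost

/-!
# Almost all members of a family, with blocks of both types
-/

set_option autoImplicit false
set_option linter.all false

namespace Pool.Agent.L5helper29.AA

open Polynomial NumberField Finset Pool.Agent.W458.MF Pool.Agent.W521.Frob

variable {K : Type} [Field K] [NumberField K] {τ : K →+* ℂ} {q : ℕ} {J J' : Type}
    [Fintype J] [DecidableEq J] [Fintype J'] [DecidableEq J'] {N : J → ℕ} {g : J' → ℕ}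
    {S : ℕ → Type} [∀ n, Fintype (S n)] {P : ∀ n, S n → J → (𝓞 K)[X]}
    {h : ∀ n, S n → J' → ℤ[X]} {δ : ℕ → J → 𝓞 K}

/-- the determinants are not zero modulo large primes -/
lemma delta_neM (hF : BigFamily τ q N g S P h δ) (n : ℕ) (j : J) {r : ℕ} [Fact r.Prime]
    (hr : ¬ r ∣ q) (φ : 𝓞 K →+* ZMod r) : φ (δ n j) ≠ 0 := by
  intro h
  obtain ⟨k, c, hc⟩ := hF.dvd n j
  have h1 := congrArg φ hc
  rw [map_mul, h, zero_mul, map_pow, map_natCast] at h1
  exact hr ((ZMod.natCast_eq_zero_iff q r).1 (eq_zero_of_pow_eq_zero h1))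

lemma proportion_le_one (g l q : ℕ) [Fact l.Prime] (E : Set (ZMod l)[X]) :
    0 ≤ proportion g l q E ∧ proportion g l q E ≤ 1 := by
  unfold proportion
  constructor
  · positivity
  apply div_le_one_of_le₀ _ (Nat.cast_nonneg _)
  have h : {A : Matrix (Fin g ⊕ Fin g) (Fin g ⊕ Fin g) (ZMod l) | A ∈ similitudes g l q ∧
      ∃ h : ℤ[X], h.Monic ∧ h.natDegree = g ∧ h.map (Int.castRingHom (ZMod l)) ∈ E ∧
        A.charpoly = (weil q h).map (Int.castRingHom (ZMod l))} ⊆ similitudes g l q :=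
    fun B hB => hB.1
  exact_mod_cast Set.ncard_le_ncard h (Set.toFinite _)

/-- a common positive lower bound -/
lemma exists_min {ι : Type} [Fintype ι] (c : ι → ℝ) (hc : ∀ i, 0 < c i) :
    ∃ c₀ : ℝ, 0 < c₀ ∧ ∀ i, c₀ ≤ c i := by
  rcases isEmpty_or_nonempty ι with hJ | hJ
  · exact ⟨1, one_pos, fun j => isEmptyElim j⟩
  · exact ⟨univ.inf' univ_nonempty c, by
      rw [lt_inf'_iff]; exact fun j _ => hc j, fun j => inf'_le _ (mem_univ j)⟩

lemma le_sum_fin {ι : Type} [Fintype ι] (f : ι → ℕ) (i : ι) : f i ≤ ∑ i, f i :=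
  single_le_sum (fun _ _ => Nat.zero_le _) (mem_univ i)

/-- the properties of the members -/
def GoodMem (τ : K →+* ℂ) (Q : ℕ) (N : J → ℕ) (g : J' → ℕ) (B : Finset ℂ) (P : J → (𝓞 K)[X])
    (h : J' → ℤ[X]) : Prop :=
  RelM Q (fun j => rts τ (P j)) (fun i => rtsZ (weil Q (h i))) B ∧
    (∀ j, (rts τ (P j)).card = N j) ∧
    (∀ i, (rtsZ (weil Q (h i))).card = 2 * g i) ∧
    (∀ i, ∀ x ∈ rtsZ (weil Q (h i)), (Q : ℂ) / x ∈ rtsZ (weil Q (h i)) ∧ (Q : ℂ) / x ≠ x)

/-- **Almost all members have constant relations.** -/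
theorem almost_relM (hS : St_SIEVEG) (hD : St_DENS) (hD' : Pool.Agent.W458.MF.St_DENS)
    (hPr : St_PRIMES) (hPat : St_PATM)
    (hq : 1 < q) (hF : BigFamily τ q N g S P h δ) (B : Finset ℂ)
    (hB : ∀ b ∈ B, b ≠ 0 ∧ IsIntegral ℤ b) (ε : ℝ) (hε : 0 < ε) :
    ∃ n₀ : ℕ, ∀ n ≥ n₀, ({s : S n | ¬ GoodMem τ (q ^ n) N g B (P n s) (h n s)}.ncard : ℝ) ≤
      ε * (Nat.card (S n) : ℝ) := by
  classical
  -- the polynomial with the roots `B`
  obtain ⟨R, hR, hRs, hBR⟩ := exists_R (K := ℂ) (S := (B : Set ℂ)) B.finite_toSet (by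
    intro z hz
    obtain ⟨f, hf, hfz⟩ := (hB z hz).2
    exact ⟨f, hf, hfz⟩)
  -- the orders of the roots of unity
  have huni : ∃ e : ℕ, 0 < e ∧ ∀ j, ∀ z : ℂ, (∃ t : ℕ, 0 < t ∧ z ^ t = 1) →
      (∃ f : ℚ[X], f ≠ 0 ∧ f.natDegree ≤ Module.finrank ℚ K * (N j * N j) ∧ aeval z f = 0) →
        z ^ e = 1 := by
    choose M hM hM' using fun j => Pool.Agent.W216.MF.uni (Module.finrank ℚ K * (N j * N j))
    refine ⟨∏ j, M j, prod_pos fun j _ => hM j, fun j z hz hf => ?_⟩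
    obtain ⟨c, hc⟩ := dvd_prod_of_mem M (mem_univ j)
    rw [hc, pow_mul, hM' j z hz hf, one_pow]
  have huni' : ∃ e : ℕ, 0 < e ∧ ∀ i, ∀ z : ℂ, (∃ t : ℕ, 0 < t ∧ z ^ t = 1) →
      (∃ f : ℚ[X], f ≠ 0 ∧ f.natDegree ≤ 2 * g i ∧ aeval z f = 0) → z ^ e = 1 := by
    choose M hM hM' using fun i => Pool.Agent.W216.MF.uni (2 * g i)
    refine ⟨∏ i, M i, prod_pos fun i _ => hM i, fun i z hz hf => ?_⟩
    obtain ⟨c, hc⟩ := dvd_prod_of_mem M (mem_univ i)
    rw [hc, pow_mul, hM' i z hz hf, one_pow]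
  obtain ⟨e, he0, he⟩ := huni
  obtain ⟨M, hM0, hM⟩ := huni'
  -- the proportions
  choose c hc r₁ hdens using fun j => hD (N j) e (by have := hF.three_le j; omega) he0
  choose c' hc' r₁' hdens' using fun i => hD' (g i) M (hF.pos i) hM0
  obtain ⟨c₁, hc₁, hc₁'⟩ := exists_min c hc
  obtain ⟨c₂, hc₂, hc₂'⟩ := exists_min c' hc'
  obtain ⟨r₀, hE₀⟩ := hF.equi
  -- the primes
  set G : Set ℕ := {r : ℕ | (r.Prime ∧ SplitsMod R r ∧ Nonempty (𝓞 K →+* ZMod r)) ∧
    ((∀ j, r₁ j ≤ r) ∧ (∀ i, r₁' i ≤ r) ∧ r₀ ≤ r ∧ q < r ∧ 2 < r)} with hG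
  have hGinf : G.Infinite := by
    have h1 := hPr K R hR hRs
    have h2 : {r : ℕ | ¬ ((∀ j, r₁ j ≤ r) ∧ (∀ i, r₁' i ≤ r) ∧ r₀ ≤ r ∧ q < r ∧ 2 < r)}.Finite := by
      refine (Finset.finite_toSet (range (∑ j, r₁ j + ∑ i, r₁' i + r₀ + q + 3))).subset ?_
      intro r hr
      rw [Finset.mem_coe, mem_range]
      by_contra hcon
      apply hr
      have h3 := le_sum_fin r₁
      have h4 := le_sum_fin r₁'
      exact ⟨fun j => by have := h3 j; omega, fun i => by have := h4 i; omega, by omega, by omega,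
        by omega⟩
    have h3 := h1.diff h2
    refine h3.mono ?_
    rintro r ⟨hr1, hr2⟩
    exact ⟨hr1, not_not.1 hr2⟩
  have hφ : ∀ r : G, Nonempty (𝓞 K →+* ZMod (r : ℕ)) := fun r => r.2.1.2.2
  let φ : ∀ r : G, 𝓞 K →+* ZMod (r : ℕ) := fun r => Classical.choice (hφ r)
  have hpr : ∀ r : G, Fact (r : ℕ).Prime := fun r => ⟨r.2.1.1⟩
  have hnd : ∀ (r : G) (n : ℕ), ¬ (r : ℕ) ∣ q ^ n := by
    intro r n hdv
    have h1 := (hpr r).1.dvd_of_dvd_pow hdv
    have h2 := Nat.le_of_dvd (by omega) h1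
    have := r.2.2.2.2.2.1
    omega
  have hne : ∀ (j : J) (n : ℕ) (r : G), φ r (δ n j) ≠ 0 := by
    intro j n r
    haveI := hpr r
    refine delta_neM hF n j ?_ (φ r)
    have := hnd r 1
    rwa [pow_one] at this
  -- the data
  let f : ∀ n, S n → J ⊕ J' → ∀ r : G, ℕ × (ZMod (r : ℕ))[X] := fun n s o r =>
    (n, Sum.elim (fun j => (P n s j).map (φ r))
      (fun i => (h n s i).map (Int.castRingHom (ZMod r))) o)
  let π : ∀ (n : ℕ) (o : J ⊕ J') (r : G), Set (ℕ × (ZMod (r : ℕ))[X]) → ℝ := fun n o r E =>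
    Sum.elim (fun j => share (N j) r (φ r (δ n j)) {u | (n, u) ∈ E})
      (fun i => proportion (g i) r (q ^ n) {u | (n, u) ∈ E}) o
  -- the patterns
  let EJ : (J × Fin 3) ⊕ (J' × Fin 2) → J → ∀ r : ℕ, Set (ZMod r)[X] := fun k j r =>
    if k = Sum.inl (j, 0) then irrSet (N j) r else
      if k = Sum.inl (j, 1) then linIrr (N j) r else splitE (N j) e r
  let EI : (J × Fin 3) ⊕ (J' × Fin 2) → J' → ℕ → ∀ r : ℕ, Set (ZMod r)[X] := fun k i n r =>
    if k = Sum.inr (i, 0) then irrSet (g i) r else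
      if k = Sum.inr (i, 1) then flipSet (g i) M r (q ^ n) else splitSet (g i) r (q ^ n)
  let E : (J × Fin 3) ⊕ (J' × Fin 2) → J ⊕ J' → ∀ r : G, Set (ℕ × (ZMod (r : ℕ))[X]) :=
    fun k o r => {u | Sum.elim (fun j => u.2 ∈ EJ k j r) (fun i => u.2 ∈ EI k i u.1 r) o}
  have hc0 : 0 < min c₁ c₂ := lt_min hc₁ hc₂
  obtain ⟨n₀, hn₀⟩ := hS (J ⊕ J') ((J × Fin 3) ⊕ (J' × Fin 2)) S G hGinf
    (fun r => ℕ × (ZMod (r : ℕ))[X]) f π (by
      rintro n (j | i) r A
      · haveI := hpr r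
        exact ⟨by simp only [π, Sum.elim_inl, share]; positivity,
          Pool.Agent.L5helper6.AA.share_le_one _ _ _ _⟩
      · haveI := hpr r
        exact proportion_le_one _ _ _ _) (by
      intro r r' hrr ε hε
      obtain ⟨n₀, hn₀⟩ := hE₀ r r' (φ r) (φ r') (hpr r).1 (hpr r').1 r.2.2.2.2.1 r'.2.2.2.2.1
        (fun h => hrr (Subtype.ext h)) ε hε
      refine ⟨n₀, fun n hn hne A A' => ?_⟩
      have h1 := hn₀ n hn hne (fun j => {u | (n, u) ∈ A (Sum.inl j)})
        (fun j => {u | (n, u) ∈ A' (Sum.inl j)}) (fun i => {u | (n, u) ∈ A (Sum.inr i)})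
        (fun i => {u | (n, u) ∈ A' (Sum.inr i)})
      rw [Fintype.prod_sum_type]
      have h2 : {s : S n | ∀ i : J ⊕ J', f n s i r ∈ A i ∧ f n s i r' ∈ A' i} =
          {s : S n | (∀ j, (P n s j).map (φ r) ∈ {u | (n, u) ∈ A (Sum.inl j)} ∧
            (P n s j).map (φ r') ∈ {u | (n, u) ∈ A' (Sum.inl j)}) ∧
            ∀ i, (h n s i).map (Int.castRingHom (ZMod r)) ∈ {u | (n, u) ∈ A (Sum.inr i)} ∧
              (h n s i).map (Int.castRingHom (ZMod r')) ∈ {u | (n, u) ∈ A' (Sum.inr i)}} := by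
        ext s
        exact Sum.forall
      rw [h2]
      exact h1) E (min c₁ c₂) hc0 (by
      rintro k (j | i) n r
      · haveI := hpr r
        obtain ⟨d1, d2, d3⟩ := hdens j r r.2.1.1 (r.2.2.1 j) _ (hne j n r)
        have d3' := d3 (hF.three_le j)
        have h1 := (min_le_left c₁ c₂).trans (hc₁' j)
        change min c₁ c₂ ≤ share (N j) r (φ r (δ n j)) (EJ k j r)
        simp only [EJ]
        split_ifs
        · exact h1.trans d1
        · exact h1.trans d3'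
        · exact h1.trans d2
      · haveI := hpr r
        obtain ⟨d1, d2, d3⟩ := hdens' i r r.2.1.1 (r.2.2.2.1 i) (q ^ n) (hnd r n)
        have h1 := (min_le_right c₁ c₂).trans (hc₂' i)
        change min c₁ c₂ ≤ proportion (g i) r (q ^ n) (EI k i n r)
        simp only [EI]
        split_ifs
        · exact h1.trans d3
        · exact h1.trans d1
        · exact h1.trans d2) ε hε
  refine ⟨max n₀ 1, fun n hn => le_trans ?_ (hn₀ n (le_of_max_le_left hn))⟩
  have hn1 : 1 ≤ n := le_of_max_le_right hn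
  have hsub : {s : S n | ¬ GoodMem τ (q ^ n) N g B (P n s) (h n s)} ⊆
      {s : S n | ¬ ∀ k, ∃ r : G, ∀ i, f n s i r ∈ E k i r} := by
    intro s hs hpat
    apply hs
    have hndP : ∀ j, (P n s j).natDegree = N j := fun j => hF.natDegree n s j
    have hndh : ∀ i, (h n s i).natDegree = g i := fun i => hF.natDegree' n s i
    have hpatJ : ∀ k, ∃ r : G, (∀ j, (P n s j).map (φ r) ∈ EJ k j r) ∧
        ∀ i, (h n s i).map (Int.castRingHom (ZMod r)) ∈ EI k i n r := by
      intro k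
      obtain ⟨r, hr⟩ := hpat k
      exact ⟨r, fun j => hr (Sum.inl j), fun i => hr (Sum.inr i)⟩
    have hr2 : ∀ r : G, (r : ℕ) ≠ 2 := fun r => by have := r.2.2.2.2.2.2; omega
    have hmain := hPat K τ J J' (q ^ n) (Nat.one_lt_pow (by omega) hq) (P n s) (h n s) B
      (fun b hb => (hB b hb).1) R hR (fun b hb => hBR b hb) (hF.monic n s)
      (fun j => by rw [hndP]; exact hF.three_le j) (hF.monic' n s)
      (fun i => by rw [hndh]; exact hF.pos i) (hF.norm n s) (hF.norm' n s) e M he0 hM0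
      (fun j z hz hf => he j z hz (by rw [hndP j] at hf; exact hf))
      (fun i z hz hf => hM i z hz (by rw [hndh i] at hf; exact hf)) ?_ ?_ ?_ ?_ ?_
    · refine ⟨hmain.1, fun j => ?_, fun i => ?_, hmain.2.2.2⟩
      · rw [hmain.2.1 j, hndP]
      · rw [hmain.2.2.1 i, hndh]
    · intro j
      obtain ⟨r, hr, hr'⟩ := hpatJ (Sum.inl (j, 0))
      refine ⟨r, hpr r, φ r, hr2 r, hnd r n, r.2.1.2.1, ?_, ?_, ?_⟩
      · have h1 := hr j
        simp only [EJ, if_true] at h1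
        rw [hndP]
        exact h1
      · intro i hi
        have h1 := hr i
        have h2 : (Sum.inl (j, 0) : (J × Fin 3) ⊕ (J' × Fin 2)) ≠ Sum.inl (i, 0) := by
          intro h
          exact hi (Prod.ext_iff.1 (Sum.inl_injective h)).1.symm
        have h3 : (Sum.inl (j, 0) : (J × Fin 3) ⊕ (J' × Fin 2)) ≠ Sum.inl (i, 1) := by
          intro h
          simp at h
        simp only [EJ, if_neg h2, if_neg h3] at h1
        rw [hndP]
        exact h1
      · intro i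
        have h1 := hr' i
        simp only [EI, reduceCtorEq, if_false] at h1
        rw [hndh]
        exact h1
    · intro j
      obtain ⟨r, hr, hr'⟩ := hpatJ (Sum.inl (j, 1))
      refine ⟨r, hpr r, φ r, r.2.1.2.1, ?_⟩
      have h1 := hr j
      have h3 : (Sum.inl (j, 1) : (J × Fin 3) ⊕ (J' × Fin 2)) ≠ Sum.inl (j, 0) := by
        intro h
        simp at h
      simp only [EJ, if_neg h3, if_true] at h1
      rw [hndP]
      exact h1
    · intro j
      obtain ⟨r, hr, hr'⟩ := hpatJ (Sum.inl (j, 2))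
      refine ⟨r, hpr r, φ r, ?_⟩
      have h1 := hr j
      have h2 : (Sum.inl (j, 2) : (J × Fin 3) ⊕ (J' × Fin 2)) ≠ Sum.inl (j, 0) := by
        intro h
        simp at h
      have h3 : (Sum.inl (j, 2) : (J × Fin 3) ⊕ (J' × Fin 2)) ≠ Sum.inl (j, 1) := by
        intro h
        simp at h
      simp only [EJ, if_neg h2, if_neg h3] at h1
      rw [hndP]
      exact h1
    · intro i
      obtain ⟨r, hr, hr'⟩ := hpatJ (Sum.inr (i, 0))
      refine ⟨r, hpr r, φ r, r.2.1.2.1, ?_⟩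
      have h1 := hr' i
      simp only [EI, if_true] at h1
      rw [hndh]
      exact h1
    · intro i
      obtain ⟨r, hr, hr'⟩ := hpatJ (Sum.inr (i, 1))
      refine ⟨r, hpr r, φ r, hr2 r, hnd r n, r.2.1.2.1, ?_, ?_, ?_⟩
      · have h1 := hr' i
        have h2 : (Sum.inr (i, 1) : (J × Fin 3) ⊕ (J' × Fin 2)) ≠ Sum.inr (i, 0) := by
          intro h
          simp at h
        simp only [EI, if_neg h2, if_true] at h1
        rw [hndh]
        exact h1
      · intro i' hi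
        have h1 := hr' i'
        have h2 : (Sum.inr (i, 1) : (J × Fin 3) ⊕ (J' × Fin 2)) ≠ Sum.inr (i', 0) := by
          intro h
          simp at h
        have h3 : (Sum.inr (i, 1) : (J × Fin 3) ⊕ (J' × Fin 2)) ≠ Sum.inr (i', 1) := by
          intro h
          exact hi (Prod.ext_iff.1 (Sum.inr_injective h)).1.symm
        simp only [EI, if_neg h2, if_neg h3] at h1
        rw [hndh]
        exact h1
      · intro j
        have h1 := hr j
        simp only [EJ, reduceCtorEq, if_false] at h1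
        rw [hndP]
        exact h1
  exact_mod_cast Set.ncard_le_ncard hsub (Set.toFinite _)

end Pool.Agent.L5helper29.AA
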