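import Pool.Agent.L5helper29.AA.Mono
import Pool.Agent.L5helper29.TQ.Deg

/-!
# Gauss sums: the statement
-/

set_option autoImplicit false
set_option linter.all false

namespace Pool.Agent.L5helper29.AA

open Finset Pool.Agent.L5helper29.TQ

/-- The union of `t j` copies of `s j`, if `t j` is positive, and of `- t j` copies of the set of
the `- a`, `a ∈ s j`, if `t j` is negative. -/
def total {J : Type} [Fintype J] {m : ℕ} (s : J → Multiset (ZMod m)) (t : J → ℤ) :
    Multiset (ZMod m) :=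
  ∑ j, ((t j).toNat • s j + (-t j).toNat • (s j).map (fun a => -a))

/-- The determinants `δ j` are products of Gauss sums of the field `𝔽`: `θ` is a character of order
`m`, `ψ` is an additive character, not trivial, `s j` is a multiset of nonzero classes
modulo `m` with sum zero, whose number of elements has the parity of `N j`, and `δ j` is, up to a root
of unity, the product of the Gauss sums of the characters `θ ^ a`, `a` in `s j`, times
`|𝔽| ^ ((N j - |s j|) / 2)`. -/
structure GaussDet {J : Type} {m : ℕ} {𝔽 : Type} [Field 𝔽] [Fintype 𝔽] (θ : MulChar 𝔽 ℂ)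
    (ψ : AddChar 𝔽 ℂ) (s : J → Multiset (ZMod m)) (N : J → ℕ) (δ : J → ℂ) : Prop where
  order : orderOf θ = m
  add : ψ ≠ 1
  ne_zero : ∀ j, (0 : ZMod m) ∉ s j
  sum_eq : ∀ j, (s j).sum = 0
  parity : ∀ j, Even (N j + Multiset.card (s j))
  det : ∀ j, ∃ M : ℕ, 0 < M ∧
    (δ j ^ 2 * (Fintype.card 𝔽 : ℂ) ^ Multiset.card (s j)) ^ M =
      (((s j).map fun a => gaussSum (θ ^ a.val) ψ).prod ^ 2 * (Fintype.card 𝔽 : ℂ) ^ N j) ^ M

/-- GAUSS: the total multiset of a Tate product of determinants is a Tate character; it is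
generated, for even supports and for good pairs (from `TQ.total_tate`, `N214.HB.isTate_of_gauss`,
`TQ.fermatGenerated_of_tate`). -/
def St_GAUSS : Prop := ∀ (J : Type) [Fintype J] [DecidableEq J] (p m : ℕ) [Fact p.Prime] [NeZero m]
  (𝔽 : Type) [Field 𝔽] [Fintype 𝔽] [CharP 𝔽 p] (θ : MulChar 𝔽 ℂ) (ψ : AddChar 𝔽 ℂ)
  (s : J → Multiset (ZMod m)) (A : J → Finset ℂ),
  (∀ j, ∀ x ∈ A j, x ≠ 0) →
  GaussDet θ ψ s (fun j => (A j).card) (fun j => ∏ x ∈ A j, x) →
  ∀ (t : J → ℤ) (c k e : ℕ), 0 < e → 2 * k = (blocks (Fintype.card 𝔽 : ℂ) A t).card + 2 * c →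
    (blocks (Fintype.card 𝔽 : ℂ) A t).prod ^ e = (((Fintype.card 𝔽 : ℂ) ^ ((k : ℤ) - c)) ^ e) →
    Pool.Agent.H916T.IsTate p m (total s t) ∧
      (GoodPair p m ∨ (∀ j, EvenSupports (s j)) → FermatGenerated p m (total s t))

end Pool.Agent.L5helper29.AA
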