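import Pool.Agent.L5helper29.AA.Half
import Pool.Agent.L5helper29.AA.GStm
import Pool.Agent.L5helper19.AA.Exc

/-!
# The conclusion: Tate classes, and infinite families
-/

set_option autoImplicit false
set_option linter.all false

namespace Pool.Agent.L5helper29.AA

open Finset TensorProduct
open Pool.Agent.H925R2 Pool.Agent.L5helper29.AS Pool.Agent.L5helper29.SE Pool.Agent.L5helper29.TQ

/-- the space is spanned by eigenvectors with eigenvalues `α`, `Q / α`, `α ∈ A j`, and `α ∈ A' i` -/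
def Spanned {V : Type} [AddCommGroup V] [Module ℂ V] (Φ : V →ₗ[ℂ] V) (Q : ℕ) {J J' : Type}
    (A : J → Finset ℂ) (A' : J' → Finset ℂ) : Prop :=
  Submodule.span ℂ {v : V | (∃ j, ∃ α ∈ A j, Φ v = α • v ∨ Φ v = ((Q : ℂ) / α) • v) ∨
    ∃ i, ∃ α ∈ A' i, Φ v = α • v} = ⊤

/-- Tate classes in `W ⊗ ⋀ ^ k V` over the extension of degree `s`, with eigenvalue `(Q ^ m) ^ s`. -/
def IsTateRel {V W : Type} [AddCommGroup V] [Module ℂ V] [AddCommGroup W] [Module ℂ W]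
    (Φ : V →ₗ[ℂ] V) (Ψ : W →ₗ[ℂ] W) (Q : ℂ) (k : ℕ) (m : ℤ) (s : ℕ)
    (x : W ⊗[ℂ] ExteriorAlgebra ℂ V) : Prop :=
  x ∈ Submodule.span ℂ {y | ∃ w : W, ∃ z ∈ ⋀[ℂ]^k V, y = w ⊗ₜ[ℂ] z} ∧ TateEq Φ Ψ Q m s x

/-- Up to finite extensions, all eigenvectors of `Ψ` are Tate classes. -/
def OnlyTate {W : Type} [AddCommGroup W] [Module ℂ W] (Ψ : W →ₗ[ℂ] W) (Q : ℂ) : Prop :=
  ∀ ν : ℂ, Module.End.HasEigenvalue Ψ ν → ∃ (e : ℕ) (a : ℤ), 0 < e ∧ ν ^ e = (Q ^ a) ^ e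

/-- The determinants are products of Gauss sums. -/
def Gauss (Q : ℕ) {J : Type} (A : J → Finset ℂ) (p m : ℕ) (s : J → Multiset (ZMod m)) : Prop :=
  ∃ (𝔽 : Type) (_ : Field 𝔽) (_ : Fintype 𝔽) (_ : CharP 𝔽 p) (θ : MulChar 𝔽 ℂ)
    (ψ : AddChar 𝔽 ℂ), Fintype.card 𝔽 = Q ∧
      GaussDet θ ψ s (fun j => (A j).card) (fun j => ∏ x ∈ A j, x)

/-- The determinant monomials of exponents `t` are Tate classes, up to finite extensions, and the
union of the multisets `s j`, with multiplicities `t j`, is a Tate character. -/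
def TateType (Q : ℕ) {J : Type} [Fintype J] (A : J → Finset ℂ) (t : J → ℤ) : Prop :=
  (∃ e a : ℕ, 0 < e ∧ (blocks (Q : ℂ) A t).card = 2 * a ∧
    (blocks (Q : ℂ) A t).prod ^ e = ((Q : ℂ) ^ a) ^ e) ∧
  ∀ (p m : ℕ) [Fact p.Prime] [NeZero m] (s : J → Multiset (ZMod m)), Gauss Q A p m s →
    Pool.Agent.H916T.IsTate p m (total s t) ∧
      (GoodPair p m ∨ (∀ j, EvenSupports (s j)) → FermatGenerated p m (total s t))

/-- the Tate classes `w ⊗ (D * R)` -/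
def Standard {V W : Type} [AddCommGroup V] [Module ℂ V] [AddCommGroup W] [Module ℂ W]
    (Φ : V →ₗ[ℂ] V) (Ψ : W →ₗ[ℂ] W) (Q : ℕ) {J : Type} [Fintype J] (A : J → Finset ℂ)
    (k : ℕ) (m : ℤ) (s : ℕ) : Set (W ⊗[ℂ] ExteriorAlgebra ℂ V) :=
  {y | ∃ (t : J → ℤ) (w : W) (D R : ExteriorAlgebra ℂ V) (c : ℕ),
    D ∈ detC Φ (blocks (Q : ℂ) A t) ∧ R ∈ Algebra.adjoin ℂ (deg2 Φ (Q : ℂ)) ∧
    k = (blocks (Q : ℂ) A t).card + 2 * c ∧
    IsTateRel Φ Ψ (Q : ℂ) (blocks (Q : ℂ) A t).card (m - c) s (w ⊗ₜ[ℂ] D) ∧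
    (OnlyTate Ψ (Q : ℂ) → TateType Q A t) ∧ y = w ⊗ₜ[ℂ] (D * R)}

/-- All Tate classes are sums of classes `w ⊗ (D * R)`. -/
def TateProp (Q : ℕ) {J J' : Type} [Fintype J] (A : J → Finset ℂ) (A' : J' → Finset ℂ)
    (B : Finset ℂ) : Prop :=
  ∀ (V : Type) [AddCommGroup V] [Module ℂ V] (Φ : V →ₗ[ℂ] V) (W : Type) [AddCommGroup W]
    [Module ℂ W] [FiniteDimensional ℂ W] (Ψ : W →ₗ[ℂ] W), Spanned Φ Q A A' →
    (∀ ν : ℂ, Module.End.HasEigenvalue Ψ ν → InGrp Q B ν) →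
    ∀ (k : ℕ) (m : ℤ) (s : ℕ) (x : W ⊗[ℂ] ExteriorAlgebra ℂ V), 1 ≤ s →
      IsTateRel Φ Ψ (Q : ℂ) k m s x → x ∈ Submodule.span ℂ (Standard Φ Ψ Q A k m s)

/-- the type of the determinants, if there are only Tate classes in the other factor -/
theorem tateType_of (hG : St_GAUSS) {Q : ℕ} (hQ : 1 < Q) {J : Type} [Fintype J] [DecidableEq J]
    {A : J → Finset ℂ} (hn : ∀ j, ∀ x ∈ A j, ‖x‖ = Real.sqrt Q) {t : J → ℤ} {ν : ℂ} {e : ℕ} {a : ℤ}
    (he : 0 < e) (hν : ν ^ e = ((Q : ℂ) ^ a) ^ e) {s : ℕ} (hs : 1 ≤ s) {m : ℤ}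
    (h : (ν * (blocks (Q : ℂ) A t).prod) ^ s = ((Q : ℂ) ^ m) ^ s) : TateType Q A t := by
  classical
  have hQR : (0 : ℝ) < Q := by exact_mod_cast (by omega : 0 < Q)
  have hQC : (Q : ℂ) ≠ 0 := by exact_mod_cast (by omega : Q ≠ 0)
  have h0 : ∀ j, ∀ x ∈ A j, x ≠ 0 := by
    intro j x hx h
    have h3 := hn j x hx
    rw [h, norm_zero] at h3
    exact (Real.sqrt_pos.2 hQR).ne h3
  -- the power
  have h1 : (blocks (Q : ℂ) A t).prod ^ (s * e) = ((Q : ℂ) ^ (m - a)) ^ (s * e) := by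
    have h2 : ν ^ (s * e) * (blocks (Q : ℂ) A t).prod ^ (s * e) = ((Q : ℂ) ^ m) ^ (s * e) := by
      rw [← mul_pow, pow_mul, h, ← pow_mul]
    have h3 : ν ^ (s * e) = ((Q : ℂ) ^ a) ^ (s * e) := by
      rw [mul_comm s e, pow_mul, hν, ← pow_mul]
    rw [h3] at h2
    have h4 : ((Q : ℂ) ^ a) ^ (s * e) ≠ 0 := pow_ne_zero _ (zpow_ne_zero _ hQC)
    rw [zpow_sub₀ hQC, div_pow, eq_div_iff h4, mul_comm]
    exact h2
  -- the norms
  have h2 : ∀ u : Multiset ℂ, (∀ x ∈ u, ‖x‖ = Real.sqrt Q) → ‖u.prod‖ = Real.sqrt Q ^ u.card := by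
    intro u
    induction u using Multiset.induction_on with
    | empty => intro _; simp
    | cons x u ih =>
      intro hu
      rw [Multiset.prod_cons, norm_mul, ih (fun y hy => hu y (Multiset.mem_cons_of_mem hy)),
        hu x (Multiset.mem_cons_self x u), Multiset.card_cons, pow_succ, mul_comm]
  have h3 : ∀ x ∈ blocks (Q : ℂ) A t, ‖x‖ = Real.sqrt Q := by
    intro x hx
    unfold blocks at hx
    rw [Multiset.mem_sum] at hx
    obtain ⟨j, -, hx⟩ := hx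
    rw [Multiset.mem_add] at hx
    rcases hx with hx | hx
    · exact hn j x (by
        have := Multiset.mem_of_mem_nsmul hx
        exact this)
    · obtain ⟨y, hy, rfl⟩ := Multiset.mem_map.1 (Multiset.mem_of_mem_nsmul hx)
      have hy' := hn j y hy
      rw [norm_div, hy', Complex.norm_natCast, Real.div_sqrt]
  have h4 := congrArg (fun z => ‖z‖) h1
  simp only [norm_pow, norm_zpow, Complex.norm_natCast] at h4
  rw [h2 _ h3] at h4
  -- the parity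
  set N := (blocks (Q : ℂ) A t).card with hN
  have h5 : (Q : ℝ) ^ ((N : ℤ) * (s * e)) = (Q : ℝ) ^ (2 * ((m - a) * (s * e))) := by
    have h6 : ((Real.sqrt Q ^ N) ^ (s * e)) ^ 2 = (((Q : ℝ) ^ (m - a)) ^ (s * e)) ^ 2 := by rw [h4]
    have h7 : ((Real.sqrt Q ^ N) ^ (s * e)) ^ 2 = (Q : ℝ) ^ ((N : ℤ) * (s * e)) := by
      have h10 : ((Real.sqrt Q ^ N) ^ (s * e)) ^ 2 = (Real.sqrt Q ^ 2) ^ (N * (s * e)) := by ring
      rw [h10, Real.sq_sqrt hQR.le, ← zpow_natCast]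
      push_cast
      rfl
    have h8 : (((Q : ℝ) ^ (m - a)) ^ (s * e)) ^ 2 = (Q : ℝ) ^ (2 * ((m - a) * (s * e))) := by
      rw [← pow_mul, ← zpow_natCast, ← zpow_mul]
      congr 1
      push_cast
      ring
    rw [← h7, h6, h8]
  have h6 : (N : ℤ) * (s * e) = 2 * ((m - a) * (s * e)) := by
    have hQ1 : (1 : ℝ) < Q := by exact_mod_cast hQ
    exact zpow_right_injective₀ hQR hQ1.ne' h5
  have h7 : (N : ℤ) = 2 * (m - a) := by
    have h8 : ((s : ℤ) * e) ≠ 0 := by positivity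
    have h9 : (N : ℤ) * (s * e) = (2 * (m - a)) * (s * e) := by rw [h6]; ring
    exact mul_right_cancel₀ h8 h9
  obtain ⟨b, hb⟩ : ∃ b : ℕ, (b : ℤ) = m - a := ⟨(m - a).toNat, by omega⟩
  have hNb : N = 2 * b := by omega
  have h8 : (blocks (Q : ℂ) A t).prod ^ (s * e) = ((Q : ℂ) ^ b) ^ (s * e) := by
    rw [h1, ← hb, zpow_natCast]
  have hse : 0 < s * e := Nat.mul_pos (by omega) he
  refine ⟨⟨s * e, b, hse, hNb, h8⟩, ?_⟩
  rintro p m' _ _ u ⟨𝔽, _, _, _, θ, ψ, hcard, hdet⟩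
  have h9 := hG J p m' 𝔽 θ ψ u A h0 hdet t 0 b (s * e) hse (by
    rw [hcard, ← hN, hNb]; ring) (by
    rw [hcard, h8]
    simp)
  exact h9

/-- the conclusion from the relations -/
theorem tateProp_of_relM (hG : St_GAUSS) {Q : ℕ} (hQ : 1 < Q) {J J' : Type} [Fintype J]
    [DecidableEq J] [Fintype J'] [DecidableEq J'] {A : J → Finset ℂ} {A' : J' → Finset ℂ}
    {B : Finset ℂ} (h3 : ∀ j, 3 ≤ (A j).card) (hn : ∀ j, ∀ x ∈ A j, ‖x‖ = Real.sqrt Q)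
    (hn' : ∀ i, ∀ x ∈ A' i, ‖x‖ = Real.sqrt Q)
    (hd : ∀ i, ∀ x ∈ A' i, (Q : ℂ) / x ∈ A' i) (hf : ∀ i, ∀ x ∈ A' i, (Q : ℂ) / x ≠ x)
    (hB0 : ∀ b ∈ B, b ≠ 0) (rel : RelM Q A A' B) : TateProp Q A A' B := by
  classical
  have hQR : (0 : ℝ) < Q := by exact_mod_cast (by omega : 0 < Q)
  have h0 : ∀ j, ∀ x ∈ A j, x ≠ 0 := by
    intro j x hx h
    have h3 := hn j x hx
    rw [h, norm_zero] at h3
    exact (Real.sqrt_pos.2 hQR).ne h3
  intro V _ _ Φ W _ _ _ Ψ hspan hΨ k m s x hs hx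
  have h1 := tate_mix Φ Ψ hQ h0 h3 hn' hd hf rel hspan hB0 hΨ k m s hs x hx.1 hx.2
  refine (Submodule.span_mono ?_) h1
  rintro y ⟨t, w, D, R, c, hD, hR, hk, hT, ⟨ν, hν, hν'⟩, hy⟩
  refine ⟨t, w, D, R, c, hD, hR, hk, ⟨Submodule.subset_span ⟨w, D, ?_, rfl⟩, hT⟩, fun hO => ?_, hy⟩
  · exact (detC_eig Φ hD 1).1
  · obtain ⟨e, a, he, hνe⟩ := hO ν hν
    exact tateType_of hG hQ hn he hνe hs hν'

/-- independence of the members of a family -/
def Independent (G : Subgroup (RingAut ℂ)) {J : Type} (A : J → Finset ℂ) : Prop :=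
  ∀ (F : Finset J) (j : J), j ∉ F → ∃ σ ∈ G, (∀ i ∈ F, ∀ x ∈ A i, σ x = x) ∧ ∃ x ∈ A j, σ x ≠ x

/-- **Infinite families.** -/
theorem exceptional (hG : St_GAUSS) {Q : ℕ} (hQ : 1 < Q) (G : Subgroup (RingAut ℂ)) {J J' : Type}
    [DecidableEq J] [DecidableEq J'] (A : J → Finset ℂ) (A' : J' → Finset ℂ) (B : Finset ℂ)
    (hA : ∀ j, 3 ≤ (A j).card ∧ Pool.Agent.L5helper29.AA.Blk G (A j))
    (hA' : ∀ i, Pool.Agent.L5helper19.AA.BlkS Q G (A' i))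
    (hn : ∀ j, ∀ x ∈ A j, ‖x‖ = Real.sqrt Q) (hn' : ∀ i, ∀ x ∈ A' i, ‖x‖ = Real.sqrt Q)
    (hB0 : ∀ b ∈ B, b ≠ 0) (hBG : ∀ σ ∈ G, ∀ b ∈ B, σ b ∈ B)
    (hI : Independent G (Sum.elim A A')) :
    ∃ E : Set (J ⊕ J'), E.Finite ∧ 2 ^ E.ncard ≤ B.card.factorial ∧
      ∀ (F : Finset J) (F' : Finset J'), (∀ j ∈ F, Sum.inl j ∉ E) → (∀ i ∈ F', Sum.inr i ∉ E) →
        TateProp Q (fun j : F => A j) (fun i : F' => A' i) B := by
  classical
  obtain ⟨E, hE, hE2, hE3⟩ := Pool.Agent.L5helper19.AA.exc_main G (Sum.elim A A') B hBG hI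
  refine ⟨E, hE, hE2, fun F F' hF hF' => ?_⟩
  have hdis : Disjoint ((F.disjSum F' : Finset (J ⊕ J')) : Set (J ⊕ J')) E := by
    rw [Set.disjoint_left]
    rintro (j | i) h1 h2
    · exact hF j (by simpa using h1) h2
    · exact hF' i (by simpa using h1) h2
  have hrel := Pool.Agent.L5helper19.AA.relMix (q := Q) (G := G) (B := B)
    (A := both (fun j : F => A j) (fun i : F' => A' i)) hQ (by
      rintro (j | i)
      · exact Or.inl (hA j).2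
      · exact Or.inr (hA' i)) hB0 hBG (by
      rintro (j | i)
      · obtain ⟨σ, hσ, h1, h2, h3⟩ := hE3 (F.disjSum F') hdis (Sum.inl (j : J)) (by simp)
        refine ⟨σ, hσ, ?_, h2, h3⟩
        rintro (j' | i') hne x hx
        · exact h1 (Sum.inl (j' : J)) (by simp) (by
            intro h
            exact hne (congrArg Sum.inl (Subtype.ext (Sum.inl_injective h)))) x hx
        · exact h1 (Sum.inr (i' : J')) (by simp) (by simp) x hx
      · obtain ⟨σ, hσ, h1, h2, h3⟩ := hE3 (F.disjSum F') hdis (Sum.inr (i : J')) (by simp)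
        refine ⟨σ, hσ, ?_, h2, h3⟩
        rintro (j' | i') hne x hx
        · exact h1 (Sum.inl (j' : J)) (by simp) (by simp) x hx
        · exact h1 (Sum.inr (i' : J')) (by simp) (by
            intro h
            exact hne (congrArg Sum.inr (Subtype.ext (Sum.inr_injective h)))) x hx)
  refine tateProp_of_relM hG hQ (fun j => (hA j).1) (fun j => hn j) (fun i => hn' i)
    (fun i => (hA' i).dual) ?_ hB0 ?_
  · intro i x hx hxx
    obtain ⟨y, hy, hy'⟩ := (hA' i).generic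
    obtain ⟨σ, hσ, h1⟩ := (hA' i).trans x hx y hy
    have hx0 := (hA' i).ne_zero x hx
    have h2 : x ^ 2 = Q := by
      rw [div_eq_iff hx0] at hxx
      rw [pow_two, hxx]
    have h3 := congrArg σ h2
    rw [map_pow, h1, map_natCast] at h3
    exact hy' 2 (by norm_num) 1 (by rw [h3, zpow_one])
  · intro m N hN k n hm
    have h1 := hrel m N hN k n hm
    exact ⟨fun j => (h1 (Sum.inl j)).1 (hA j).2, fun i => (h1 (Sum.inr i)).2 (hA' i)⟩

end Pool.Agent.L5helper29.AA
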