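import Pool.Agent.L5helper29.AA.Defs

/-!
# Families with large unitary monodromy: equidistribution, and the sieve (statement)
-/

set_option autoImplicit false
set_option linter.all false

namespace Pool.Agent.L5helper29.AA

open Polynomial NumberField Pool.Agent.W458.MF

/-- Equidistribution: for two large primes `r ≠ r'` and homomorphisms `φ`, `φ'` of the ring of
integers of `K` to the fields with `r` and `r'` elements, the reductions of the tuple `(P j)` are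
distributed, for `n → ∞`, like the characteristic polynomials of independent random matrices of
size `N j` with determinants `δ j`. -/
def Equi {K : Type} [Field K] [NumberField K] {J : Type} [Fintype J] (N : J → ℕ)
    (S : ℕ → Type) [∀ n, Fintype (S n)] (P : ∀ n, S n → J → (𝓞 K)[X]) (δ : ℕ → J → 𝓞 K) : Prop :=
  ∃ r₀ : ℕ, ∀ (r r' : ℕ) (φ : 𝓞 K →+* ZMod r) (φ' : 𝓞 K →+* ZMod r'), r.Prime → r'.Prime →
    r₀ ≤ r → r₀ ≤ r' → r ≠ r' → ∀ ε : ℝ, 0 < ε → ∃ n₀ : ℕ, ∀ n ≥ n₀, Nonempty (S n) →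
      ∀ (E : J → Set (ZMod r)[X]) (E' : J → Set (ZMod r')[X]),
        |({s : S n | ∀ j, (P n s j).map φ ∈ E j ∧ (P n s j).map φ' ∈ E' j}.ncard : ℝ) /
            (Nat.card (S n) : ℝ) -
          ∏ j, share (N j) r (φ (δ n j)) (E j) * share (N j) r' (φ' (δ n j)) (E' j)| ≤ ε

/-- ALMOST: for almost all members each pattern occurs at some place. -/
def St_ALMOST : Prop := ∀ (K : Type) [Field K] [NumberField K] (J κ : Type) [Fintype J]
  [Fintype κ] (N : J → ℕ) (S : ℕ → Type) [∀ n, Fintype (S n)]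
  (P : ∀ n, S n → J → (𝓞 K)[X]) (δ : ℕ → J → 𝓞 K), Equi N S P δ →
  ∀ (G : Set ℕ), G.Infinite → (∀ r ∈ G, r.Prime) → ∀ (φ : ∀ r : G, 𝓞 K →+* ZMod (r : ℕ))
    (E : κ → J → ∀ r : ℕ, Set (ZMod r)[X]) (c : ℝ), 0 < c →
    (∀ (j : J) (n : ℕ) (r : G), φ r (δ n j) ≠ 0) →
    (∀ (k : κ) (j : J) (n : ℕ) (r : G), c ≤ share (N j) r (φ r (δ n j)) (E k j r)) →
    ∀ ε : ℝ, 0 < ε → ∃ n₀ : ℕ, ∀ n ≥ n₀,
      ({s : S n | ¬ ∀ k, ∃ r : G, ∀ j, (P n s j).map (φ r) ∈ E k j r}.ncard : ℝ) ≤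
        ε * (Nat.card (S n) : ℝ)

end Pool.Agent.L5helper29.AA
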