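import Pool.Agent.L5helper29.SE.Ext2

/-!
# Monomials of eigenvectors whose exponents are constant on the blocks
-/

set_option autoImplicit false
set_option linter.all false

namespace Pool.Agent.L5helper29.AA

open Module ExteriorAlgebra
open Pool.Agent.H925R2 Pool.Agent.L5helper29.AS Pool.Agent.L5helper29.SE

section balanced

variable {K : Type*} [Field K] [DecidableEq K]

/-- the product of the elements of a balanced multiset -/
theorem balanced_prod (q : K) (hq : q ≠ 0) (E : Set K) (hE : ∀ x ∈ E, x ≠ 0 ∧ q / x ≠ x) :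
    ∀ (n : ℕ) (s : Multiset K), s.card = n → (∀ x ∈ s, x ∈ E) →
      (∀ x ∈ E, s.count x = s.count (q / x)) → ∃ c : ℕ, s.card = 2 * c ∧ s.prod = q ^ c := by
  intro n
  induction n using Nat.strong_induction_on with
  | _ n ih =>
    intro s hsn hs hbal
    rcases Multiset.empty_or_exists_mem s with rfl | ⟨x, hx⟩
    · exact ⟨0, by simp, by simp⟩
    · obtain ⟨s', hs'⟩ := Multiset.exists_cons_of_mem hx
      have hxE := hs x hx
      obtain ⟨hx0, hxx⟩ := hE x hxE
      have h1 : q / x ∈ s' := by
        have h2 : 0 < s.count (q / x) := by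
          rw [← hbal x hxE]
          exact Multiset.count_pos.2 hx
        have h3 := Multiset.count_pos.1 h2
        rw [hs', Multiset.mem_cons] at h3
        exact h3.resolve_left hxx
      obtain ⟨s'', hs''⟩ := Multiset.exists_cons_of_mem h1
      have hs3 : s = x ::ₘ (q / x) ::ₘ s'' := by rw [hs', hs'']
      have hcard : s.card = s''.card + 2 := by
        rw [hs3, Multiset.card_cons, Multiset.card_cons]
      obtain ⟨c, hc1, hc2⟩ := ih s''.card (by omega) s'' rfl
        (fun y hy => hs y (by rw [hs3]; simp [hy])) (by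
          intro y hy
          have hy0 := (hE y hy).1
          have h4 := hbal y hy
          rw [hs3] at h4
          simp only [Multiset.count_cons] at h4
          have e1 : (q / y = x) ↔ (y = q / x) := by
            constructor
            · rintro rfl
              field_simp
            · rintro rfl
              field_simp
          have e2 : (q / y = q / x) ↔ (y = x) := by
            constructor
            · intro h
              rw [← qq hq hy0, h, qq hq hx0]
            · rintro rfl
              rfl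
          rw [if_congr e1 rfl rfl, if_congr e2 rfl rfl] at h4
          omega)
      refine ⟨c + 1, by omega, ?_⟩
      rw [hs3, Multiset.prod_cons, Multiset.prod_cons, hc2, pow_succ]
      field_simp

end balanced

section ext

variable {K V : Type*} [Field K] [AddCommGroup V] [Module K V]

variable [DecidableEq K] {J : Type*} [Fintype J] [DecidableEq J] (F : V →ₗ[K] V) (q : K)
  (B : J → Finset K)

/-- The union of `t j` copies of `B j`, if `t j` is positive, and of `- t j` copies of the set of
the numbers `q / x`, `x ∈ B j`, if `t j` is negative. -/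
def blocks (t : J → ℤ) : Multiset K :=
  ∑ j, ((t j).toNat • (B j).val + (-t j).toNat • (B j).val.map (fun x => q / x))

variable {q B}

lemma count_map_div (hq : q ≠ 0) (h0 : ∀ j, ∀ x ∈ B j, x ≠ 0) (j : J) (x : K) (hx : x ≠ 0) :
    ((B j).val.map (fun x => q / x)).count (q / x) = (B j).val.count x := by
  by_cases hm : x ∈ B j
  · rw [Multiset.count_eq_one_of_mem (B j).nodup hm, Multiset.count_eq_one_of_mem]
    · refine (Multiset.nodup_map_iff_inj_on (B j).nodup).2 ?_
      intro x hx y hy hxy
      rw [← qq hq (h0 j x hx), hxy, qq hq (h0 j y hy)]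
    · exact Multiset.mem_map_of_mem _ hm
  · have h1 : x ∉ (B j).val := hm
    rw [Multiset.count_eq_zero_of_notMem h1, Multiset.count_eq_zero_of_notMem]
    intro h
    obtain ⟨y, hy, hyx⟩ := Multiset.mem_map.1 h
    apply hm
    rw [← qq hq hx, ← hyx, qq hq (h0 j y hy)]
    exact hy

lemma blocks_count (hq : q ≠ 0) (h0 : ∀ j, ∀ x ∈ B j, x ≠ 0)
    (hD1 : ∀ i j, ∀ x, x ∈ B i → x ∈ B j → i = j)
    (hD2 : ∀ i j, ∀ x, x ∈ B i → q / x ∉ B j) (t : J → ℤ) (i : J) (x : K) (hx : x ∈ B i) :
    (blocks q B t).count x = (t i).toNat ∧ (blocks q B t).count (q / x) = (-t i).toNat := by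
  have hx0 := h0 i x hx
  have e1 : ∀ j, (B j).val.count x = if j = i then 1 else 0 := by
    intro j
    split_ifs with h
    · subst h
      exact Multiset.count_eq_one_of_mem (B j).nodup hx
    · exact Multiset.count_eq_zero_of_notMem fun h1 => h (hD1 j i x h1 hx)
  have e2 : ∀ j, (B j).val.count (q / x) = 0 := fun j =>
    Multiset.count_eq_zero_of_notMem (hD2 i j x hx)
  have e3 : ∀ j, ((B j).val.map (fun x => q / x)).count (q / x) = if j = i then 1 else 0 :=
    fun j => by rw [count_map_div hq h0 j x hx0, e1]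
  have e4 : ∀ j, ((B j).val.map (fun x => q / x)).count x = 0 := by
    intro j
    apply Multiset.count_eq_zero_of_notMem
    intro h
    obtain ⟨y, hy, rfl⟩ := Multiset.mem_map.1 h
    exact hD2 j i y hy hx
  unfold blocks
  constructor
  · rw [Multiset.count_sum']
    simp only [Multiset.count_add, Multiset.count_nsmul, e1, e4]
    simp
  · rw [Multiset.count_sum']
    simp only [Multiset.count_add, Multiset.count_nsmul, e2, e3]
    simp

lemma blocks_mem (t : J → ℤ) (y : K) (hy : y ∈ blocks q B t) :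
    ∃ j, y ∈ B j ∨ ∃ x ∈ B j, y = q / x := by
  unfold blocks at hy
  rw [Multiset.mem_sum] at hy
  obtain ⟨j, -, hj⟩ := hy
  rw [Multiset.mem_add] at hj
  rcases hj with h | h
  · exact ⟨j, Or.inl (Multiset.mem_of_mem_nsmul h)⟩
  · obtain ⟨x, hx, rfl⟩ := Multiset.mem_map.1 (Multiset.mem_of_mem_nsmul h)
    exact ⟨j, Or.inr ⟨x, hx, rfl⟩⟩

/-- **Splitting monomials.** -/
theorem mono_split (hq : q ≠ 0) (h0 : ∀ j, ∀ x ∈ B j, x ≠ 0)
    (hD1 : ∀ i j, ∀ x, x ∈ B i → x ∈ B j → i = j)
    (hD2 : ∀ i j, ∀ x, x ∈ B i → q / x ∉ B j) (L : List (V × K))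
    (hL : ∀ e ∈ L, (∃ j, e.2 ∈ B j ∨ q / e.2 ∈ B j) ∧ F e.1 = e.2 • e.1) (t : J → ℤ)
    (ht : ∀ j, ∀ x ∈ B j,
      ((L.map Prod.snd).count x : ℤ) - ((L.map Prod.snd).count (q / x) : ℤ) = t j) :
    ∃ (D R : ExteriorAlgebra K V) (c : ℕ), D ∈ detC F (blocks q B t) ∧
      R ∈ Algebra.adjoin K (deg2 F q) ∧ (L.map (fun e => ι K e.1)).prod = D * R ∧
      L.length = (blocks q B t).card + 2 * c ∧
      (L.map Prod.snd).prod = (blocks q B t).prod * q ^ c := by
  classical
  set E : Set K := {x | ∃ j, x ∈ B j ∨ q / x ∈ B j} with hEdef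
  have hx0 : ∀ x ∈ E, x ≠ 0 := by
    rintro x ⟨j, hj | hj⟩
    · exact h0 j x hj
    · rintro rfl
      rw [div_zero] at hj
      exact h0 j 0 hj rfl
  have hqq : ∀ x : K, x ≠ 0 → q / (q / x) = x := fun x hx => qq hq hx
  have hE : ∀ x ∈ E, x ≠ 0 ∧ q / x ≠ x := by
    intro x hx
    refine ⟨hx0 x hx, ?_⟩
    intro h
    obtain ⟨j, hj | hj⟩ := hx
    · exact hD2 j j x hj (by rw [h]; exact hj)
    · exact hD2 j j _ hj (by rw [hqq x (hx0 x ⟨j, Or.inr hj⟩), ← h]; exact hj)
  have hle : blocks q B t ≤ ((L.map Prod.snd : List K) : Multiset K) := by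
    rw [Multiset.le_iff_count]
    intro y
    rw [Multiset.coe_count]
    by_cases hy : y ∈ blocks q B t
    · obtain ⟨j, hj | ⟨x, hx, rfl⟩⟩ := blocks_mem t y hy
      · rw [(blocks_count hq h0 hD1 hD2 t j y hj).1]
        have := ht j y hj
        omega
      · rw [(blocks_count hq h0 hD1 hD2 t j x hx).2]
        have := ht j x hx
        omega
    · rw [Multiset.count_eq_zero_of_notMem hy]
      exact Nat.zero_le _
  obtain ⟨L₁, L₂, hperm, hL₁⟩ := extract _ L hle
  have hmemL : ∀ e, e ∈ L₁ ∨ e ∈ L₂ → e ∈ L := by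
    intro e he
    rw [hperm.mem_iff, List.mem_append]
    exact he
  have hcnt : ∀ y : K, (L.map Prod.snd).count y =
      (blocks q B t).count y + (L₂.map Prod.snd).count y := by
    intro y
    rw [(hperm.map Prod.snd).count_eq, List.map_append, List.count_append, ← hL₁,
      Multiset.coe_count]
  have hbal : ∀ x ∈ E, (L₂.map Prod.snd).count x = (L₂.map Prod.snd).count (q / x) := by
    have h1 : ∀ j, ∀ x ∈ B j, (L₂.map Prod.snd).count x = (L₂.map Prod.snd).count (q / x) := by
      intro j x hx
      have h2 := ht j x hx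
      obtain ⟨h3, h4⟩ := blocks_count hq h0 hD1 hD2 t j x hx
      have h5 := hcnt x
      have h6 := hcnt (q / x)
      rw [h3] at h5
      rw [h4] at h6
      omega
    rintro x ⟨j, hj | hj⟩
    · exact h1 j x hj
    · have := h1 j _ hj
      rw [hqq x (hx0 x ⟨j, Or.inr hj⟩)] at this
      exact this.symm
  have hL₂E : ∀ e ∈ L₂, e.2 ∈ E ∧ F e.1 = e.2 • e.1 := fun e he => hL e (hmemL e (Or.inr he))
  obtain ⟨s, hs⟩ := prod_perm (K := K) (fun e : V × K => e.1) hperm
  rw [List.map_append, List.prod_append] at hs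
  have hR := prod_mem_adjoin F q E hE L₂.length L₂ rfl hL₂E hbal
  obtain ⟨c, hc1, hc2⟩ := balanced_prod q hq E hE (L₂.map Prod.snd).length
    ((L₂.map Prod.snd : List K) : Multiset K) (by simp) (by
      intro x hx
      rw [Multiset.mem_coe] at hx
      obtain ⟨e, he, rfl⟩ := List.mem_map.1 hx
      exact (hL₂E e he).1) (by
      intro x hx
      rw [Multiset.coe_count, Multiset.coe_count]
      exact hbal x hx)
  rw [Multiset.coe_card, List.length_map] at hc1
  rw [Multiset.prod_coe] at hc2
  refine ⟨(L₁.map (fun e => ι K e.1)).prod, s • (L₂.map (fun e => ι K e.1)).prod, c,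
    ⟨L₁, hL₁, fun e he => (hL e (hmemL e (Or.inl he))).2, rfl⟩,
    Subalgebra.smul_mem _ hR s, ?_, ?_, ?_⟩
  · rw [hs, mul_smul_comm]
  · rw [hperm.length_eq, List.length_append, hc1]
    congr 1
    have := congrArg Multiset.card hL₁
    rw [Multiset.coe_card, List.length_map] at this
    exact this
  · have h1 : (L.map Prod.snd).prod = (L₁.map Prod.snd).prod * (L₂.map Prod.snd).prod := by
      rw [(hperm.map Prod.snd).prod_eq, List.map_append, List.prod_append]
    rw [h1, hc2]
    congr 1
    rw [← hL₁, Multiset.prod_coe]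

end ext

end Pool.Agent.L5helper29.AA
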