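import Mathlib

/-!
# Eigenvectors in tensor products
-/

set_option autoImplicit false
set_option linter.all false

namespace Pool.Agent.L5helper29.AA

open TensorProduct

variable {K W M : Type*} [Field K] [AddCommGroup W] [Module K W] [AddCommGroup M] [Module K M]

/-- the coordinate with respect to a linear form on the second factor -/
noncomputable def crd (f : M →ₗ[K] K) : W ⊗[K] M →ₗ[K] W :=
  (TensorProduct.rid K W).toLinearMap ∘ₗ (LinearMap.lTensor W f)

lemma crd_tmul (f : M →ₗ[K] K) (w : W) (m : M) : crd f (w ⊗ₜ[K] m) = f m • w := by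
  unfold crd
  rw [LinearMap.comp_apply, LinearMap.lTensor_tmul]
  simp

/-- **Eigenvectors in a tensor product.** -/
theorem eig_decomp (G : M →ₗ[K] M) (H : W →ₗ[K] W) (T : Set M) (hT : ∀ t ∈ T, ∃ μ : K, G t = μ • t)
    (lam : K) (x : W ⊗[K] M)
    (hx : x ∈ Submodule.span K {y : W ⊗[K] M | ∃ w, ∃ t ∈ T, y = w ⊗ₜ[K] t})
    (hGx : TensorProduct.map H G x = lam • x) :
    x ∈ Submodule.span K {y : W ⊗[K] M | ∃ w, ∃ t ∈ T, w ≠ 0 ∧ t ≠ 0 ∧
      (∃ μ : K, G t = μ • t ∧ μ • H w = lam • w) ∧ y = w ⊗ₜ[K] t} := by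
  classical
  obtain ⟨b, hbT, hbs, hbl⟩ := exists_linearIndependent K T
  choose! μ hμ using hT
  -- representation
  have hrep : ∃ f : b →₀ W, x = f.sum fun t w => w ⊗ₜ[K] (t : M) := by
    have hx' : x ∈ Submodule.span K {y : W ⊗[K] M | ∃ w, ∃ t ∈ b, y = w ⊗ₜ[K] t} := by
      refine (Submodule.span_le.2 ?_) hx
      rintro _ ⟨w, t, ht, rfl⟩
      have h1 : t ∈ Submodule.span K b := by
        rw [hbs]
        exact Submodule.subset_span ht
      have h2 : Submodule.map (TensorProduct.mk K W M w) (Submodule.span K b) ≤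
          Submodule.span K {y : W ⊗[K] M | ∃ w, ∃ t ∈ b, y = w ⊗ₜ[K] t} := by
        rw [Submodule.map_span]
        refine Submodule.span_mono ?_
        rintro _ ⟨t, ht, rfl⟩
        exact ⟨w, t, ht, rfl⟩
      exact h2 ⟨t, h1, rfl⟩
    clear hGx hx
    induction hx' using Submodule.span_induction with
    | mem y hy =>
      obtain ⟨w, t, ht, rfl⟩ := hy
      exact ⟨Finsupp.single ⟨t, ht⟩ w, by rw [Finsupp.sum_single_index]; exact zero_tmul _ _⟩
    | zero => exact ⟨0, by simp⟩
    | add y z _ _ hy hz =>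
      obtain ⟨f, rfl⟩ := hy
      obtain ⟨g, rfl⟩ := hz
      refine ⟨f + g, ?_⟩
      rw [Finsupp.sum_add_index']
      · intro t; exact zero_tmul _ _
      · intro t w w'; exact add_tmul _ _ _
    | smul c y _ hy =>
      obtain ⟨f, rfl⟩ := hy
      refine ⟨c • f, ?_⟩
      rw [Finsupp.sum_smul_index', Finsupp.smul_sum]
      · refine Finsupp.sum_congr fun t _ => ?_
        exact (smul_tmul' c _ _).symm
      · intro t; exact zero_tmul _ _
  obtain ⟨f, rfl⟩ := hrep
  -- coordinates
  have hbl' : LinearIndepOn K id b := hbl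
  let B := Module.Basis.extend hbl'
  have hbe : ∀ t : b, (t : M) ∈ hbl'.extend (Set.subset_univ b) :=
    fun t => hbl'.subset_extend _ t.2
  have hB : ∀ t t' : b, B.coord ⟨t, hbe t⟩ (t' : M) = if t' = t then 1 else 0 := by
    intro t t'
    have h1 : (t' : M) = B ⟨t', hbe t'⟩ := by
      change _ = (Module.Basis.extend hbl') _
      rw [Module.Basis.extend_apply_self]
    rw [h1, Module.Basis.coord_apply, Module.Basis.repr_self, Finsupp.single_apply]
    by_cases h : t' = t
    · rw [if_pos h, if_pos (by rw [h])]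
    · rw [if_neg h, if_neg]
      intro h2
      have h3 : (t' : M) = t := by
        rw [Subtype.mk.injEq] at h2
        exact h2
      exact h (Subtype.ext h3)
  have hcrd : ∀ (g : b →₀ W) (t : b),
      crd (B.coord ⟨t, hbe t⟩) (g.sum fun t w => w ⊗ₜ[K] (t : M)) = g t := by
    intro g t
    rw [map_finsuppSum]
    simp only [crd_tmul, hB, ite_smul, one_smul, zero_smul]
    rw [Finsupp.sum, Finset.sum_ite_eq' ]
    split_ifs with h
    · rfl
    · rw [Finsupp.notMem_support_iff] at h
      exact h.symm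
  have hGH : TensorProduct.map H G (f.sum fun t w => w ⊗ₜ[K] (t : M)) =
      f.sum fun t w => (μ t • H w) ⊗ₜ[K] (t : M) := by
    rw [map_finsuppSum]
    refine Finsupp.sum_congr fun t _ => ?_
    rw [TensorProduct.map_tmul, hμ t (hbT t.2), tmul_smul, smul_tmul']
  have hkey : ∀ t : b, μ t • H (f t) = lam • f t := by
    intro t
    have h1 := congrArg (crd (B.coord ⟨t, hbe t⟩)) hGx
    rw [map_smul, hcrd, hGH, map_finsuppSum] at h1
    simp only [crd_tmul, hB, ite_smul, one_smul, zero_smul] at h1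
    rw [Finsupp.sum, Finset.sum_ite_eq'] at h1
    split_ifs at h1 with h
    · exact h1
    · rw [Finsupp.notMem_support_iff] at h
      rw [h, map_zero, smul_zero, smul_zero]
  refine Submodule.sum_mem _ fun t ht => Submodule.subset_span ?_
  refine ⟨f t, t, hbT t.2, Finsupp.mem_support_iff.1 ht, ?_, ⟨μ t, hμ t (hbT t.2), hkey t⟩, rfl⟩
  exact hbl.ne_zero t

end Pool.Agent.L5helper29.AA
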