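import Pool.Agent.L5helper29.AA.Rel
import Pool.Agent.L5helper29.AA.Ten
import Pool.Agent.L5helper29.AA.Mono
import Pool.Agent.L5helper29.AS.Comb
import Pool.Agent.L5helper29.AS.Final

/-!
# Tate classes on the products of an arbitrary variety with powers of a member
-/

set_option autoImplicit false
set_option linter.all false

namespace Pool.Agent.L5helper29.AA

open Finset TensorProduct
open Pool.Agent.H925R2 Pool.Agent.L5helper29.AS Pool.Agent.L5helper29.SE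

/-- Up to powers, `z` is in the group generated by `q` and the elements of `B`. -/
def InGrp (q : ℕ) (B : Finset ℂ) (z : ℂ) : Prop :=
  ∃ (N : ℕ) (k : ℤ) (n : ℂ → ℤ), 0 < N ∧ z ^ N = (q : ℂ) ^ k * ∏ b ∈ B, b ^ n b

section

variable {J : Type*} [Fintype J] [DecidableEq J]

/-- The exponents of the multiplicative relations between the elements of the sets `A j`, modulo
roots of unity and the group generated by `q` and `B`, are constant on the sets `A j`, and zero if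
`sp j` holds. -/
def RelSp (q : ℕ) (A : J → Finset ℂ) (B : Finset ℂ) (sp : J → Prop) : Prop :=
  ∀ (m : ∀ j, A j → ℤ) (N : ℕ), 0 < N → ∀ (k : ℤ) (n : ℂ → ℤ),
    mono A m ^ N = (q : ℂ) ^ k * ∏ b ∈ B, b ^ n b →
      ∀ j : J, (∀ x y : A j, m j x = m j y) ∧ (sp j → ∀ x : A j, m j x = 0)

/-- The blocks are disjoint. -/
theorem disjoint_of_rel {q : ℕ} {A : J → Finset ℂ} {B : Finset ℂ} {sp : J → Prop} (hq : 1 < q)
    (h0 : ∀ j, ∀ x ∈ A j, x ≠ 0) (h3 : ∀ j, ¬ sp j → 3 ≤ (A j).card) (rel : RelSp q A B sp)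
    {Q : ℂ} {a : ℤ} (hQ : Q = (q : ℂ) ^ a) :
    (∀ i j, ∀ x, x ∈ A i → x ∈ A j → i = j) ∧ (∀ i j, ∀ x, x ∈ A i → Q / x ∉ A j) := by
  classical
  have hqC : (q : ℂ) ≠ 0 := by exact_mod_cast (by omega : q ≠ 0)
  -- another element
  have hother : ∀ (j : J), ¬ sp j → ∀ (x y : ℂ), ∃ z ∈ A j, z ≠ x ∧ z ≠ y := by
    intro j hsp x y
    by_contra hn
    push Not at hn
    have h4 : A j ⊆ {x, y} := by
      intro z hz
      rw [mem_insert, mem_singleton]
      by_cases hzx : z = x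
      · exact Or.inl hzx
      · exact Or.inr (hn z hz hzx)
    have := (card_le_card h4).trans card_le_two
    have := h3 j hsp
    omega
  -- the exponents of two elements
  have key : ∀ (i j : J) (a : A i) (b : A j) (ca cb : ℤ) (k : ℤ), 0 < ca → (cb ≤ 0 → i ≠ j) →
      (a : ℂ) ^ ca * (b : ℂ) ^ cb = (q : ℂ) ^ k → False := by
    intro i j a b ca cb k hca hcb hab
    have h4 := rel ((Pi.single i (Pi.single a ca : A i → ℤ) : ∀ j, A j → ℤ) +
      Pi.single j (Pi.single b cb : A j → ℤ)) 1 one_pos k 0 (by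
        rw [pow_one, mono_add h0]
        simp only [Pi.zero_apply, zpow_zero, prod_const_one, mul_one]
        rw [← hab]
        have h5 : ∀ (i : J) (a : A i) (c : ℤ),
            mono A (Pi.single i (Pi.single a c : A i → ℤ) : ∀ j, A j → ℤ) = (a : ℂ) ^ c := by
          intro i a c
          unfold mono
          rw [prod_eq_single i, prod_eq_single a]
          · rw [Pi.single_eq_same, Pi.single_eq_same]
          · intro y _ hy
            rw [Pi.single_eq_same, Pi.single_eq_of_ne hy, zpow_zero]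
          · intro h
            exact absurd (mem_univ _) h
          · intro i' _ hi
            apply prod_eq_one
            intro y _
            rw [Pi.single_eq_of_ne hi, Pi.zero_apply, zpow_zero]
          · intro h
            exact absurd (mem_univ _) h
        rw [h5, h5])
    have hnn : i = j → (0 : ℤ) ≤ (Pi.single b cb : A j → ℤ) b := by
      intro hij
      rw [Pi.single_eq_same]
      by_contra hle
      exact hcb (by omega) hij
    by_cases hsp : sp i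
    · have h5 := (h4 i).2 hsp a
      simp only [Pi.add_apply, Pi.single_eq_same] at h5
      by_cases hij : i = j
      · subst hij
        rw [Pi.single_eq_same] at h5
        have hcb' := hnn rfl
        rw [Pi.single_eq_same] at hcb'
        have h8 : (0 : ℤ) ≤ (Pi.single b cb : A i → ℤ) a := by
          rw [Pi.single_apply]
          split_ifs <;> omega
        omega
      · rw [Pi.single_eq_of_ne hij] at h5
        simp only [Pi.zero_apply] at h5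
        omega
    obtain ⟨z, hz, hza, hzb⟩ := hother i hsp a b
    have h5 := (h4 i).1 a ⟨z, hz⟩
    simp only [Pi.add_apply, Pi.single_eq_same] at h5
    have h6 : (Pi.single a ca : A i → ℤ) ⟨z, hz⟩ = 0 := by
      apply Pi.single_eq_of_ne
      intro h
      exact hza (congrArg Subtype.val h)
    rw [h6] at h5
    by_cases hij : i = j
    · subst hij
      rw [Pi.single_eq_same] at h5
      have h7 : (Pi.single b cb : A i → ℤ) ⟨z, hz⟩ = 0 := by
        apply Pi.single_eq_of_ne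
        intro h
        exact hzb (congrArg Subtype.val h)
      rw [h7] at h5
      have hcb' : 0 < cb := by
        by_contra hle
        exact hcb (by omega) rfl
      have h8 : (0 : ℤ) ≤ (Pi.single b cb : A i → ℤ) a := by
        rw [Pi.single_apply]
        split_ifs <;> omega
      omega
    · rw [Pi.single_eq_of_ne hij] at h5
      simp only [Pi.zero_apply] at h5
      omega
  constructor
  · intro i j x hi hj
    by_contra hne
    refine key i j ⟨x, hi⟩ ⟨x, hj⟩ 1 (-1) 0 one_pos (fun _ => hne) ?_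
    rw [zpow_one, zpow_neg, zpow_one, zpow_zero]
    exact mul_inv_cancel₀ (h0 i x hi)
  · intro i j x hi hj
    refine key i j ⟨x, hi⟩ ⟨_, hj⟩ 1 1 a one_pos (fun h => by omega) ?_
    rw [zpow_one, zpow_one, ← hQ]
    have := h0 i x hi
    change x * (Q / x) = Q
    field_simp

/-- An eigenvalue of a power comes from an eigenvalue. -/
theorem exists_eig {W : Type*} [AddCommGroup W] [Module ℂ W] [FiniteDimensional ℂ W]
    (Ψ : W →ₗ[ℂ] W) {s : ℕ} (hs : 1 ≤ s) {c : ℂ} {w : W} (hw : w ≠ 0) (h : (Ψ ^ s) w = c • w) :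
    ∃ ν : ℂ, Module.End.HasEigenvalue Ψ ν ∧ ν ^ s = c := by
  have h1 : Module.End.HasEigenvalue (Ψ ^ s) c :=
    Module.End.hasEigenvalue_of_hasEigenvector
      (Module.End.hasEigenvector_iff.2 ⟨Module.End.mem_eigenspace_iff.2 h, hw⟩)
  rw [Module.End.hasEigenvalue_iff_mem_spectrum] at h1
  have h2 : spectrum ℂ (Ψ ^ s : Module.End ℂ W) = (fun x => x ^ s) '' spectrum ℂ (Ψ : Module.End ℂ W) :=
    spectrum.map_pow_of_pos (Ψ : Module.End ℂ W) (by omega)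
  rw [h2] at h1
  obtain ⟨ν, hν, rfl⟩ := h1
  exact ⟨ν, Module.End.hasEigenvalue_iff_mem_spectrum.2 hν, rfl⟩

variable {V : Type*} [AddCommGroup V] [Module ℂ V] (Φ : V →ₗ[ℂ] V)
  {W : Type*} [AddCommGroup W] [Module ℂ W] [FiniteDimensional ℂ W] (Ψ : W →ₗ[ℂ] W)

/-- the eigenvalue equation of Tate classes -/
def TateEq (Q : ℂ) (m : ℤ) (s : ℕ) (x : W ⊗[ℂ] ExteriorAlgebra ℂ V) : Prop :=
  TensorProduct.map (Ψ ^ s) (ExteriorAlgebra.map (Φ ^ s)).toLinearMap x = (Q ^ m) ^ s • x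

/-- **The relative theorem.** -/
theorem tate_rel {q : ℕ} {A : J → Finset ℂ} {B : Finset ℂ} {sp : J → Prop} (hq : 1 < q)
    (h0 : ∀ j, ∀ x ∈ A j, x ≠ 0) (h3 : ∀ j, ¬ sp j → 3 ≤ (A j).card) (rel : RelSp q A B sp)
    {Q : ℂ} {a₀ : ℤ}
    (hQ : Q = (q : ℂ) ^ a₀)
    (hspan : Submodule.span ℂ {v : V | ∃ μ : ℂ, (∃ j, μ ∈ A j ∨ Q / μ ∈ A j) ∧
      Φ v = μ • v} = ⊤)
    (hB0 : ∀ b ∈ B, b ≠ 0) (hΨ : ∀ ν : ℂ, Module.End.HasEigenvalue Ψ ν → InGrp q B ν)
    (k : ℕ) (m : ℤ) (s : ℕ) (hs : 1 ≤ s) (x : W ⊗[ℂ] ExteriorAlgebra ℂ V)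
    (hx : x ∈ Submodule.span ℂ {y | ∃ w : W, ∃ z ∈ ⋀[ℂ]^k V, y = w ⊗ₜ[ℂ] z})
    (hT : TateEq Φ Ψ Q m s x) :
    x ∈ Submodule.span ℂ {y | ∃ (t : J → ℤ) (w : W) (D R : ExteriorAlgebra ℂ V) (c : ℕ),
      (∀ j, sp j → t j = 0) ∧ D ∈ detC Φ (blocks Q A t) ∧ R ∈ Algebra.adjoin ℂ (deg2 Φ Q) ∧
      k = (blocks Q A t).card + 2 * c ∧ TateEq Φ Ψ Q (m - c) s (w ⊗ₜ[ℂ] D) ∧
      (∃ ν : ℂ, Module.End.HasEigenvalue Ψ ν ∧
        (ν * (blocks Q A t).prod) ^ s = (Q ^ (m - c)) ^ s) ∧ y = w ⊗ₜ[ℂ] (D * R)} := by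
  classical
  have hqC : (q : ℂ) ≠ 0 := by exact_mod_cast (by omega : q ≠ 0)
  have hQ0 : Q ≠ 0 := by rw [hQ]; exact zpow_ne_zero _ hqC
  obtain ⟨hD1, hD2⟩ := disjoint_of_rel hq h0 h3 rel hQ
  set E' : Set V := {v : V | ∃ μ : ℂ, (∃ j, μ ∈ A j ∨ Q / μ ∈ A j) ∧ Φ v = μ • v} with hE'
  have hsp := exteriorPower.ιMulti_span_fixedDegree_of_span_eq_top ℂ k V hspan
  set T : Set (ExteriorAlgebra ℂ V) :=
    {y | ∃ a : Fin k → V, (∀ j, a j ∈ E') ∧ ExteriorAlgebra.ιMulti ℂ k a = y} with hTdef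
  have hpow : ∀ (v : V) (μ : ℂ), Φ v = μ • v → (Φ ^ s) v = μ ^ s • v := by
    intro v μ h
    clear hT hs
    induction s with
    | zero => simp
    | succ s ih => rw [pow_succ', Module.End.mul_apply, ih, map_smul, h, smul_smul, pow_succ]
  have hTeig : ∀ a : Fin k → V, (∀ j, a j ∈ E') → ∃ μ : Fin k → ℂ,
      (∀ i, (∃ j, μ i ∈ A j ∨ Q / μ i ∈ A j) ∧ Φ (a i) = μ i • a i) ∧
      ExteriorAlgebra.map (Φ ^ s) (ExteriorAlgebra.ιMulti ℂ k a) =
        (∏ j, μ j) ^ s • ExteriorAlgebra.ιMulti ℂ k a := by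
    intro a ha
    choose μ hμ1 hμ2 using ha
    refine ⟨μ, fun j => ⟨hμ1 j, hμ2 j⟩, ?_⟩
    rw [ExteriorAlgebra.map_apply_ιMulti]
    have : (⇑(Φ ^ s) ∘ a) = fun j => μ j ^ s • a j := by
      funext j
      exact hpow _ _ (hμ2 j)
    rw [this, ← Finset.prod_pow]
    exact AlternatingMap.map_smul_univ _ _ _
  have hx' : x ∈ Submodule.span ℂ {y : W ⊗[ℂ] ExteriorAlgebra ℂ V |
      ∃ w, ∃ t ∈ T, y = w ⊗ₜ[ℂ] t} := by
    refine (Submodule.span_le.2 ?_) hx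
    rintro _ ⟨w, z, hz, rfl⟩
    have h1 : z ∈ Submodule.span ℂ T := by
      rw [← hsp] at hz
      refine Submodule.span_mono ?_ hz
      rintro _ ⟨a, ha, rfl⟩
      exact ⟨a, fun j => ha ⟨j, rfl⟩, rfl⟩
    have h2 : Submodule.map (TensorProduct.mk ℂ W (ExteriorAlgebra ℂ V) w) (Submodule.span ℂ T) ≤
        Submodule.span ℂ {y : W ⊗[ℂ] ExteriorAlgebra ℂ V | ∃ w, ∃ t ∈ T, y = w ⊗ₜ[ℂ] t} := by
      rw [Submodule.map_span]
      refine Submodule.span_mono ?_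
      rintro _ ⟨t, ht, rfl⟩
      exact ⟨w, t, ht, rfl⟩
    exact h2 ⟨z, h1, rfl⟩
  have hdec := eig_decomp (ExteriorAlgebra.map (Φ ^ s)).toLinearMap (Ψ ^ s) T (by
    rintro t ⟨a, ha, rfl⟩
    obtain ⟨μ, _, h⟩ := hTeig a ha
    exact ⟨_, h⟩) ((Q ^ m) ^ s) x hx' hT
  refine (Submodule.span_mono ?_) hdec
  rintro _ ⟨w, t, ⟨a, ha, rfl⟩, hw, ht0, ⟨μ₀, hμ₀, hw'⟩, rfl⟩
  obtain ⟨μ, hμ, h⟩ := hTeig a ha
  have hμeq : μ₀ = (∏ j, μ j) ^ s := by
    have h1 : μ₀ • ExteriorAlgebra.ιMulti ℂ k a = (∏ j, μ j) ^ s • ExteriorAlgebra.ιMulti ℂ k a := by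
      rw [← h]; exact hμ₀.symm
    exact smul_left_injective ℂ ht0 h1
  subst hμeq
  have hμ0 : ∀ i, μ i ≠ 0 := by
    intro i
    obtain ⟨⟨j, hj | hj⟩, -⟩ := hμ i
    · exact h0 j _ hj
    · intro h1
      rw [h1, div_zero] at hj
      exact h0 j 0 hj rfl
  have hP0 : (∏ j, μ j) ^ s ≠ 0 := pow_ne_zero _ (prod_ne_zero_iff.2 fun i _ => hμ0 i)
  have hw2 : (Ψ ^ s) w = ((Q ^ m) ^ s / (∏ j, μ j) ^ s) • w := by
    rw [div_eq_inv_mul, mul_smul, ← hw', smul_smul, inv_mul_cancel₀ hP0, one_smul]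
  obtain ⟨ν, hν, hνs⟩ := exists_eig Ψ hs hw hw2
  obtain ⟨N, b, n, hN, hνN⟩ := hΨ ν hν
  -- the list
  set L : List (V × ℂ) := List.ofFn fun j => (a j, μ j) with hLdef
  have hLsnd : L.map Prod.snd = List.ofFn μ := by
    rw [hLdef, List.map_ofFn]; rfl
  have hLprod : (L.map Prod.snd).prod = ∏ j, μ j := by rw [hLsnd, List.prod_ofFn]
  have hL : ∀ e ∈ L, (∃ j, e.2 ∈ A j ∨ Q / e.2 ∈ A j) ∧ Φ e.1 = e.2 • e.1 := by
    intro e he
    rw [hLdef, List.mem_ofFn] at he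
    obtain ⟨i, rfl⟩ := he
    exact hμ i
  have hLE : ∀ c ∈ L.map Prod.snd, ∃ j, c ∈ A j ∨ Q / c ∈ A j := by
    intro c hc
    obtain ⟨e, he, rfl⟩ := List.mem_map.1 hc
    exact (hL e he).1
  -- the relation
  have h4 := list_prod A Q hQ0 h0 hD1 hD2 (L.map Prod.snd) hLE
  set m' : ∀ j, A j → ℤ := fun j x => ((L.map Prod.snd).count (x : ℂ) : ℤ) -
    ((L.map Prod.snd).count (Q / (x : ℂ)) : ℤ) with hm'
  set c₁ : ℕ := ∑ j, ∑ x : A j, (L.map Prod.snd).count (Q / (x : ℂ)) with hc₁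
  have h5 : (∏ j, μ j) = mono A m' * Q ^ c₁ := by
    rw [← hLprod, h4, hc₁, ← prod_pow_eq_pow_sum]
    unfold mono
    rw [← prod_mul_distrib]
    refine prod_congr rfl fun j _ => ?_
    rw [← prod_pow_eq_pow_sum, ← prod_mul_distrib]
    refine prod_congr rfl fun x _ => ?_
    have hx0 := h0 j x x.2
    rw [hm']
    simp only
    rw [zpow_sub₀ hx0, zpow_natCast, zpow_natCast, div_pow]
    field_simp
  have hrel : ∃ (k' : ℤ) (n' : ℂ → ℤ), mono A m' ^ (s * N) =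
      (q : ℂ) ^ k' * ∏ b ∈ B, b ^ n' b := by
    refine ⟨a₀ * m * s * N - a₀ * c₁ * s * N - b * s, fun z => -(n z * s), ?_⟩
    have h6 : (∏ j, μ j) ^ s * ν ^ s = (Q ^ m) ^ s := by
      rw [hνs]
      field_simp
    have h7 : (mono A m' ^ (s * N)) * (Q ^ c₁) ^ (s * N) * (ν ^ N) ^ s = ((Q ^ m) ^ s) ^ N := by
      rw [← h6, h5]
      ring
    have e1 : ((Q ^ m) ^ s) ^ N = (q : ℂ) ^ (a₀ * m * s * N) := by
      rw [hQ]
      simp only [← zpow_natCast, ← zpow_mul]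
    have e2 : (Q ^ c₁) ^ (s * N) = (q : ℂ) ^ (a₀ * c₁ * s * N) := by
      rw [hQ]
      simp only [← zpow_natCast, ← zpow_mul]
      push_cast
      rw [mul_assoc (a₀ * (c₁ : ℤ))]
    have e3 : (ν ^ N) ^ s = (q : ℂ) ^ (b * s) * ∏ b ∈ B, b ^ (n b * s) := by
      rw [hνN, mul_pow, ← prod_pow, ← zpow_natCast ((q : ℂ) ^ b) s, ← zpow_mul]
      congr 1
      refine prod_congr rfl fun z _ => ?_
      rw [← zpow_natCast, ← zpow_mul]
    have e4 : (∏ z ∈ B, z ^ (n z * (s : ℤ))) * ∏ z ∈ B, z ^ (-(n z * (s : ℤ))) = 1 := by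
      rw [← prod_mul_distrib]
      refine prod_eq_one fun z hz => ?_
      rw [← zpow_add₀ (hB0 z hz), add_neg_cancel, zpow_zero]
    rw [e1, e2, e3] at h7
    rw [zpow_sub₀ hqC, zpow_sub₀ hqC, ← h7]
    have e5 : (q : ℂ) ^ (a₀ * c₁ * s * N) ≠ 0 := zpow_ne_zero _ hqC
    have e6 : (q : ℂ) ^ (b * s) ≠ 0 := zpow_ne_zero _ hqC
    have e7 : mono A m' ^ (s * N) * (q : ℂ) ^ (a₀ * c₁ * s * N) *
        ((q : ℂ) ^ (b * s) * ∏ b ∈ B, b ^ (n b * (s : ℤ))) / (q : ℂ) ^ (a₀ * c₁ * s * N) /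
          (q : ℂ) ^ (b * s) = mono A m' ^ (s * N) * ∏ b ∈ B, b ^ (n b * (s : ℤ)) := by
      field_simp
    rw [e7, mul_assoc, e4, mul_one]
  obtain ⟨k', n', hrel⟩ := hrel
  have h7 := rel m' (s * N) (Nat.mul_pos (by omega) hN) k' n' hrel
  have htL : ∀ j, ∃ t : ℤ, (sp j → t = 0) ∧ ∀ x ∈ A j, ((L.map Prod.snd).count x : ℤ) -
      ((L.map Prod.snd).count (Q / x) : ℤ) = t := by
    intro j
    by_cases hsp : sp j
    · exact ⟨0, fun _ => rfl, fun x hx => (h7 j).2 hsp ⟨x, hx⟩⟩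
    · obtain ⟨z, hz⟩ : ∃ z : ℂ, z ∈ A j := card_pos.1 (by have := h3 j hsp; omega)
      exact ⟨m' j ⟨z, hz⟩, fun h => absurd h hsp, fun x hx => (h7 j).1 ⟨x, hx⟩ ⟨z, hz⟩⟩
  choose t htsp htL using htL
  obtain ⟨D, R, c, hD, hR, hDR, hlen, hprod⟩ := mono_split Φ hQ0 h0 hD1 hD2 L hL t htL
  have h8 : (L.map (fun e => ExteriorAlgebra.ι ℂ e.1)).prod = ExteriorAlgebra.ιMulti ℂ k a := by
    rw [ExteriorAlgebra.ιMulti_apply, hLdef, List.map_ofFn]
    rfl
  have hlen' : L.length = k := by rw [hLdef, List.length_ofFn]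
  rw [hLprod] at hprod
  have hS0 : (blocks Q A t).prod ≠ 0 := by
    intro h
    apply hP0
    rw [hprod, h, zero_mul, zero_pow (by omega)]
  have hQc : Q ^ (m - c) = Q ^ m / Q ^ c := by rw [zpow_sub₀ hQ0, zpow_natCast]
  have hν' : (ν * (blocks Q A t).prod) ^ s = (Q ^ (m - (c : ℤ))) ^ s := by
    rw [mul_pow, hνs, hprod, hQc, div_pow, mul_pow]
    have := pow_ne_zero s hS0
    have := pow_ne_zero s (pow_ne_zero c hQ0)
    field_simp
  refine ⟨t, w, D, R, c, htsp, hD, hR, by rw [← hlen', hlen], ?_, ⟨ν, hν, hν'⟩, ?_⟩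
  · unfold TateEq
    rw [TensorProduct.map_tmul, hw2, AlgHom.toLinearMap_apply, (detC_eig Φ hD s).2,
      ← hνs, TensorProduct.tmul_smul, ← TensorProduct.smul_tmul', smul_smul, ← hν', mul_pow,
      mul_comm]
  · rw [← h8, hDR]

end

end Pool.Agent.L5helper29.AA
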